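import Pool.Agent.W562.Str.Core3

set_option autoImplicit false

namespace Pool.Agent.W562.Str

open Set MeasureTheory Real Metric Filter Topology
open scoped Pointwise ENNReal

/-- the square of the centred support function is a trigonometric polynomial of degree two -/
lemma trig_form {K : Set E2} (hK : Body K) (hT : Trans K) :
    ∃ c : E2, (∀ θ, 0 < supp K θ - ip c θ) ∧ ∃ A B C : ℝ, ∀ θ,
      (supp K θ - ip c θ) ^ 2 = A + B * cos (2 * θ) + C * sin (2 * θ) := by
  obtain ⟨c, hc⟩ := exists_center hK hT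
  have hpos := center_pos hK hc
  refine ⟨c, hpos, ?_⟩
  set k : ℝ → ℝ := fun θ => supp K θ - ip c θ with hk
  have hcont := hK.cont
  have hci := continuous_ip c
  have ck : Continuous k := by fun_prop
  obtain ⟨M, hM0, hM⟩ := kbound hK c
  have hper : Function.Periodic k (2 * π) := by
    intro θ; simp only [hk, supp_periodic (K := K) θ, ip_periodic c θ]
  obtain ⟨t₀, -, ht₀⟩ := (isCompact_Icc (a := (0 : ℝ)) (b := 2 * π)).exists_isMinOn
    (nonempty_Icc.mpr (by linarith [pi_pos])) ck.continuousOn
  set r := k t₀ with hr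
  have hr0 : 0 < r := hpos t₀
  have hkr : ∀ θ, r ≤ k θ := by
    intro θ
    obtain ⟨t, ht, he⟩ := hper.exists_mem_Ico₀ (by linarith [pi_pos]) θ
    rw [he]
    exact ht₀ ⟨ht.1, ht.2.le⟩
  have hkM : ∀ θ, k θ ≤ M := fun θ => (le_abs_self _).trans (hM θ)
  have hrM : r ≤ M := hkM t₀
  have hquot : 0 < r / M := div_pos hr0 hM0
  have hquot1 : r / M ≤ 1 := (div_le_one hM0).mpr hrM
  have hpi2 : 1 < π / 2 := by linarith [pi_gt_three]
  apply lemI (g := fun θ => k θ ^ 2) (δ₀ := π / 2 - r / M) (by linarith) (by linarith)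
  intro δ h0 h1 θ
  have hδ0 : 0 < δ := by linarith
  have hcos : 0 < cos δ := cos_pos_of_mem_Ioo ⟨by linarith, h1⟩
  have hsin : 0 < sin δ := sin_pos_of_pos_of_lt_pi hδ0 (by linarith [pi_pos])
  have hcos1 : cos δ < r / M := by
    have e1 : cos δ = sin (π / 2 - δ) := (sin_pi_div_two_sub δ).symm
    rw [e1]
    have := sin_lt (x := π / 2 - δ) (by linarith)
    linarith
  have hpp : ∀ t, r / cos δ ≤ pp k δ t := by
    intro t
    rw [pp, div_le_div_iff₀ hcos (by positivity)]
    have := hkr (t + δ)
    have := hkr (t - δ)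
    nlinarith
  have hpM : ∀ t, k t < pp k δ t := by
    intro t
    have : M < r / cos δ := by
      rw [lt_div_iff₀ hcos]
      rw [lt_div_iff₀ hM0] at hcos1
      linarith
    linarith [hpp t, hkM t]
  have hcp : Continuous (pp k δ) := by unfold pp; fun_prop
  have hcq : Continuous (qq k δ) := by unfold qq; fun_prop
  have hqB : ∀ t, |qq k δ t| ≤ (2 * M) / (2 * sin δ) := by
    intro t
    rw [qq, abs_div, abs_of_pos (show 0 < 2 * sin δ by positivity)]
    apply div_le_div_of_nonneg_right _ (by positivity)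
    have a1 := abs_le.mp (hM (t + δ))
    have a2 := abs_le.mp (hM (t - δ))
    rw [abs_le]
    constructor <;> simp only [hk] <;> linarith
  have hH := lemH (g := fun θ => k θ ^ 2) hcp hcq (div_pos hr0 hcos) hpp hqB (by
    intro t s hs
    exact lemG hK hT hc hδ0 h1 (hpM t) s hs) θ
  refine hH.congr_deriv ?_
  rw [pp, qq, sin_two_mul]
  field_simp
  ring

/-- a body whose centred support function is the square root of a trigonometric polynomial of
degree two is an ellipse -/
lemma is_ellipse {K : Set E2} (hK : Body K) {c : E2} (hpos : ∀ θ, 0 < supp K θ - ip c θ)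
    {A B C : ℝ} (hg : ∀ θ, (supp K θ - ip c θ) ^ 2 = A + B * cos (2 * θ) + C * sin (2 * θ)) :
    ∃ f : E2 ≃ᵃ[ℝ] E2, K = f '' closedBall 0 1 := by
  -- positivity of the quadratic form
  have hAB : 0 < A + B := by
    have h1 := hg 0
    have h2 := pow_pos (hpos 0) 2
    rw [h1] at h2
    simpa using h2
  have hdet : 0 < A ^ 2 - B ^ 2 - C ^ 2 := by
    obtain ⟨ψ, e0, e1⟩ := exists_ip_norm (!₂[B, C] : E2)
    have h1 := hg ((ψ + π) / 2)
    have h2 := pow_pos (hpos ((ψ + π) / 2)) 2
    rw [h1, show 2 * ((ψ + π) / 2) = ψ + π by ring, cos_add_pi, sin_add_pi] at h2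
    have h3 := norm_sq (!₂[B, C] : E2)
    set v := ‖(!₂[B, C] : E2)‖ with hv
    simp only [Matrix.cons_val_zero, Matrix.cons_val_one] at e0 e1 h3
    have h4 := sin_sq_add_cos_sq ψ
    have h5 : v < A := by
      have : A + B * -cos ψ + C * -sin ψ = A - v := by
        rw [e0, e1]; linear_combination (-v) * h4
      linarith
    have h6 : 0 ≤ v := norm_nonneg _
    nlinarith
  set a := √(A + B) with ha
  have ha0 : 0 < a := sqrt_pos.mpr hAB
  have ha2 : a ^ 2 = A + B := sq_sqrt hAB.le
  set d := √((A ^ 2 - B ^ 2 - C ^ 2) / (A + B)) with hd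
  have hd0 : 0 < d := sqrt_pos.mpr (div_pos hdet hAB)
  have hd2 : d ^ 2 = (A ^ 2 - B ^ 2 - C ^ 2) / (A + B) := sq_sqrt (div_pos hdet hAB).le
  set b := C / a with hb
  have hab : a * b = C := by rw [hb]; field_simp
  have hbd : b ^ 2 + d ^ 2 = A - B := by
    rw [hb, div_pow, ha2, hd2]
    field_simp
    ring
  let T : E2 ≃ₗ[ℝ] E2 :=
    { toFun := fun z => !₂[a * z 0, b * z 0 + d * z 1]
      invFun := fun y => !₂[y 0 / a, (y 1 - b * (y 0 / a)) / d]
      left_inv := by
        intro z
        ext i
        fin_cases i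
        · simp only [Fin.zero_eta, Matrix.cons_val_zero]
          field_simp
        · simp only [Fin.mk_one, Matrix.cons_val_zero, Matrix.cons_val_one]
          field_simp
          ring
      right_inv := by
        intro z
        ext i
        fin_cases i
        · simp only [Fin.zero_eta, Matrix.cons_val_zero]
          field_simp
        · simp only [Fin.mk_one, Matrix.cons_val_zero, Matrix.cons_val_one]
          field_simp
          ring
      map_add' := by
        intro x y
        ext i
        fin_cases i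
        · simp only [Fin.zero_eta, Matrix.cons_val_zero, PiLp.add_apply]
          ring
        · simp only [Fin.mk_one, Matrix.cons_val_one, Matrix.cons_val_fin_one, PiLp.add_apply]
          ring
      map_smul' := by
        intro r x
        ext i
        fin_cases i
        · simp only [Fin.zero_eta, Matrix.cons_val_zero, PiLp.smul_apply, smul_eq_mul,
            RingHom.id_apply]
          ring
        · simp only [Fin.mk_one, Matrix.cons_val_one, Matrix.cons_val_fin_one, PiLp.smul_apply,
            smul_eq_mul, RingHom.id_apply]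
          ring }
  have hT0 : ∀ z : E2, (T z) 0 = a * z 0 := fun z => by simp [T]
  have hT1 : ∀ z : E2, (T z) 1 = b * z 0 + d * z 1 := fun z => by simp [T]
  have hipT : ∀ (z : E2) (θ : ℝ), ip (T z) θ = z 0 * (a * cos θ + b * sin θ) + z 1 * (d * sin θ) := by
    intro z θ
    rw [ip, hT0, hT1]; ring
  have hw : ∀ θ, (a * cos θ + b * sin θ) ^ 2 + (d * sin θ) ^ 2 = (supp K θ - ip c θ) ^ 2 := by
    intro θ
    rw [hg θ, cos_two_mul, sin_two_mul]
    have h4 := sin_sq_add_cos_sq θ
    have : (a * cos θ + b * sin θ) ^ 2 + (d * sin θ) ^ 2 =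
        a ^ 2 * cos θ ^ 2 + 2 * (a * b) * sin θ * cos θ + (b ^ 2 + d ^ 2) * sin θ ^ 2 := by ring
    rw [this, ha2, hab, hbd]
    linear_combination (A - B) * h4
  refine ⟨T.toAffineEquiv.trans (AffineEquiv.constVAdd ℝ E2 c), ?_⟩
  ext x
  rw [mem_iff hK.cpt hK.cvx hK.ne]
  constructor
  · intro hx
    set z := T.symm (x - c) with hz
    have hTz : T z = x - c := by rw [hz]; exact T.apply_symm_apply _
    refine ⟨z, ?_, ?_⟩
    · rw [mem_closedBall, dist_zero_right]
      by_contra hcon
      push Not at hcon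
      have hz0 : z ≠ 0 := by
        intro h; rw [h, norm_zero] at hcon; linarith
      set y : E2 := !₂[(z 0 - b * (z 1 / d)) / a, z 1 / d] with hy
      have hy0 : y 0 = (z 0 - b * (z 1 / d)) / a := by simp [hy]
      have hy1 : y 1 = z 1 / d := by simp [hy]
      have hyne : 0 < ‖y‖ := by
        rw [norm_pos_iff]
        intro h
        apply hz0
        have f1 : z 1 = 0 := by
          have : y 1 = 0 := by rw [h]; simp
          rw [hy1, div_eq_zero_iff] at this
          exact this.resolve_right hd0.ne'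
        have f0 : z 0 = 0 := by
          have : y 0 = 0 := by rw [h]; simp
          rw [hy0, f1, zero_div, mul_zero, sub_zero, div_eq_zero_iff] at this
          exact this.resolve_right ha0.ne'
        ext i
        fin_cases i
        · simpa using f0
        · simpa using f1
      obtain ⟨θ, e0, e1⟩ := exists_ip_norm y
      have w0 : ‖y‖ * (a * cos θ + b * sin θ) = z 0 := by
        have : ‖y‖ * (a * cos θ + b * sin θ) = a * (‖y‖ * cos θ) + b * (‖y‖ * sin θ) := by ring
        rw [this, ← e0, ← e1, hy0, hy1]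
        field_simp
        ring
      have w1 : ‖y‖ * (d * sin θ) = z 1 := by
        have : ‖y‖ * (d * sin θ) = d * (‖y‖ * sin θ) := by ring
        rw [this, ← e1, hy1]
        field_simp
      have h5 := hx θ
      have h6 : ip x θ = ip c θ + ip (T z) θ := by rw [hTz, ip_sub]; ring
      have h7 : ‖y‖ * ip (T z) θ = ‖z‖ ^ 2 := by
        rw [hipT, norm_sq]
        linear_combination z 0 * w0 + z 1 * w1
      have h8 : (‖y‖ * (supp K θ - ip c θ)) ^ 2 = ‖z‖ ^ 2 := by
        rw [norm_sq z, ← w0, ← w1, mul_pow, ← hw θ]; ring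
      have h9 : ‖y‖ * (supp K θ - ip c θ) = ‖z‖ := by
        have := hpos θ
        exact (sq_eq_sq₀ (by positivity) (norm_nonneg _)).mp h8
      have h10 : ‖y‖ * ip (T z) θ ≤ ‖y‖ * (supp K θ - ip c θ) :=
        mul_le_mul_of_nonneg_left (by linarith) hyne.le
      rw [h7, h9] at h10
      nlinarith
    · show c +ᵥ T z = x
      rw [hTz, vadd_eq_add]; abel
  · rintro ⟨z, hz, rfl⟩ θ
    have e : (T.toAffineEquiv.trans (AffineEquiv.constVAdd ℝ E2 c)) z = c + T z := rfl
    rw [e, ip_add]
    rw [mem_closedBall, dist_zero_right] at hz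
    have h1 : ip (T z) θ ≤ supp K θ - ip c θ := by
      apply le_of_sq_le_sq _ (hpos θ).le
      rw [← hw θ, hipT]
      have h2 : z 0 ^ 2 + z 1 ^ 2 ≤ 1 := by
        rw [← norm_sq]; nlinarith [norm_nonneg z]
      set u := a * cos θ + b * sin θ
      set v := d * sin θ
      nlinarith [sq_nonneg (z 0 * v - z 1 * u), sq_nonneg u, sq_nonneg v,
        mul_nonneg (sub_nonneg.mpr h2) (add_nonneg (sq_nonneg u) (sq_nonneg v))]
    linarith
  where
  le_of_sq_le_sq {a b : ℝ} (h : a ^ 2 ≤ b ^ 2) (hb : 0 ≤ b) : a ≤ b := (abs_le_of_sq_le_sq' h hb).2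

end Pool.Agent.W562.Str
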