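import Mathlib

set_option autoImplicit false

namespace Pool.Agent.W562.Str

open Set MeasureTheory Real Filter Topology

lemma r_sin_tendsto (t : ℝ) : Tendsto (fun r : ℝ => r * sin (t / r)) atTop (𝓝 t) := by
  have h1 : HasDerivAt (fun x : ℝ => sin (t * x)) (t * 1 * cos (t * 0)) 0 := by
    have := ((hasDerivAt_id' (0 : ℝ)).const_mul t).sin
    convert this using 1
    ring
  have h2 := h1.tendsto_slope
  have h3 : Tendsto (fun r : ℝ => r⁻¹) atTop (𝓝[≠] (0 : ℝ)) :=
    tendsto_inv_atTop_nhdsGT_zero.mono_right (nhdsWithin_mono _ fun x hx => ne_of_gt hx)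
  have h4 := h2.comp h3
  simp only [mul_one, mul_zero, cos_zero] at h4
  apply h4.congr
  intro r
  simp only [Function.comp, slope_def_field, mul_zero, sin_zero, sub_zero, div_eq_mul_inv, inv_inv]
  ring

/-- the boundary layer integral -/
lemma layer {q : ℝ → ℝ} (hq : Continuous q) {M : ℝ} (hM : 0 < M) (hqM : ∀ x, q x ≤ M)
    (hq0 : 0 ≤ q 0) :
    Tendsto (fun r : ℝ => r * ∫ σ in (0 : ℝ)..(π / 2), max (q σ - r * sin σ) 0) atTop
      (𝓝 (q 0 ^ 2 / 2)) := by
  set T : ℝ := M * π / 2 with hT
  have hp := pi_pos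
  have hp2 : 2 < π := by linarith [pi_gt_three]
  have hT0 : 0 ≤ T := by positivity
  have hTM : M ≤ T := by rw [hT]; nlinarith
  -- rescaled form
  have h1 : ∀ᶠ r : ℝ in atTop, ∫ t in (0 : ℝ)..T, max (q (t / r) - r * sin (t / r)) 0 =
      r * ∫ σ in (0 : ℝ)..(π / 2), max (q σ - r * sin σ) 0 := by
    filter_upwards [eventually_ge_atTop M, eventually_gt_atTop 0] with r hr hr0
    have hc : Continuous (fun t => max (q (t / r) - r * sin (t / r)) 0) := by fun_prop
    have e1 := intervalIntegral.integral_comp_div (a := (0 : ℝ)) (b := r * (π / 2))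
      (fun σ => max (q σ - r * sin σ) 0) hr0.ne'
    rw [zero_div, mul_div_cancel_left₀ _ hr0.ne', smul_eq_mul] at e1
    rw [← e1]
    have hle : T ≤ r * (π / 2) := by rw [hT]; nlinarith
    rw [← intervalIntegral.integral_add_adjacent_intervals (hc.intervalIntegrable 0 T)
      (hc.intervalIntegrable T (r * (π / 2)))]
    have e2 : ∫ t in T..(r * (π / 2)), max (q (t / r) - r * sin (t / r)) 0 = 0 := by
      apply intervalIntegral.integral_zero_ae
      apply Eventually.of_forall
      intro t ht
      rw [uIoc_of_le hle] at ht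
      have ht0 : 0 ≤ t / r := by
        apply div_nonneg _ hr0.le
        linarith [ht.1]
      have ht1 : t / r ≤ π / 2 := by
        rw [div_le_iff₀ hr0]; linarith [ht.2]
      have h2 := mul_le_sin ht0 ht1
      have h3 : M ≤ r * sin (t / r) := by
        have h4 : r * (2 / π * (t / r)) = 2 / π * t := by field_simp
        have h5 := mul_le_mul_of_nonneg_left h2 hr0.le
        rw [h4] at h5
        have h6 : M ≤ 2 / π * t := by
          rw [div_mul_eq_mul_div, le_div_iff₀ hp]
          have := ht.1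
          rw [hT] at this
          linarith
        linarith
      apply max_eq_right
      linarith [hqM (t / r)]
    rw [e2, add_zero]
  have h2 : Tendsto (fun r : ℝ => ∫ t in (0 : ℝ)..T, max (q (t / r) - r * sin (t / r)) 0) atTop
      (𝓝 (∫ t in (0 : ℝ)..T, max (q 0 - t) 0)) := by
    apply intervalIntegral.tendsto_integral_filter_of_dominated_convergence (fun _ => M)
    · filter_upwards with r
      have hc : Continuous (fun t => max (q (t / r) - r * sin (t / r)) 0) := by fun_prop
      exact hc.aestronglyMeasurable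
    · filter_upwards [eventually_ge_atTop M, eventually_gt_atTop 0] with r hr hr0
      filter_upwards with t ht
      rw [uIoc_of_le hT0] at ht
      have ht0 : 0 ≤ t / r := div_nonneg ht.1.le hr0.le
      have ht1 : t / r ≤ π := by
        rw [div_le_iff₀ hr0]
        have := ht.2
        rw [hT] at this
        nlinarith
      have h3 : 0 ≤ sin (t / r) := sin_nonneg_of_nonneg_of_le_pi ht0 ht1
      rw [Real.norm_of_nonneg (le_max_right _ _)]
      apply max_le _ hM.le
      have := mul_nonneg hr0.le h3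
      linarith [hqM (t / r)]
    · exact intervalIntegrable_const
    · filter_upwards with t _
      have h3 : Tendsto (fun r : ℝ => q (t / r)) atTop (𝓝 (q 0)) := by
        apply (hq.tendsto 0).comp
        exact tendsto_const_nhds.div_atTop tendsto_id
      exact (h3.sub (r_sin_tendsto t)).max tendsto_const_nhds
  have h3 : ∫ t in (0 : ℝ)..T, max (q 0 - t) 0 = q 0 ^ 2 / 2 := by
    have hc : Continuous (fun t => max (q 0 - t) 0) := by fun_prop
    have hle : q 0 ≤ T := (hqM 0).trans hTM
    rw [← intervalIntegral.integral_add_adjacent_intervals (hc.intervalIntegrable 0 (q 0))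
      (hc.intervalIntegrable (q 0) T)]
    have e1 : ∫ t in (q 0)..T, max (q 0 - t) 0 = 0 := by
      apply intervalIntegral.integral_zero_ae
      apply Eventually.of_forall
      intro t ht
      rw [uIoc_of_le hle] at ht
      apply max_eq_right
      linarith [ht.1]
    have e2 : ∫ t in (0 : ℝ)..(q 0), max (q 0 - t) 0 = ∫ t in (0 : ℝ)..(q 0), (q 0 - t) := by
      apply intervalIntegral.integral_congr
      intro t ht
      rw [uIcc_of_le hq0] at ht
      apply max_eq_left
      linarith [ht.2]
    rw [e1, e2, add_zero]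
    rw [intervalIntegral.integral_sub intervalIntegrable_const intervalIntegral.intervalIntegrable_id]
    simp
    ring
  rw [h3] at h2
  exact h2.congr' h1

/-- the far part -/
noncomputable def Hf (k : ℝ → ℝ) (φ : ℝ) : ℝ := ∫ s in (π / 2)..(3 * π / 2), k (φ + s)

/-- the remainder -/
noncomputable def Rf (k : ℝ → ℝ) (φ r : ℝ) : ℝ :=
  ∫ s in (-(π / 2))..(π / 2), max (k (φ + s) - r * cos s) 0

lemma Rf_nonneg (k : ℝ → ℝ) (φ r : ℝ) : 0 ≤ Rf k φ r := by
  apply intervalIntegral.integral_nonneg (by linarith [pi_pos])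
  intro s _
  exact le_max_right _ _

lemma psi_eq {k : ℝ → ℝ} (hk : Continuous k) (hper : Function.Periodic k (2 * π))
    (hpos : ∀ θ, 0 < k θ) (φ : ℝ) {r : ℝ} (hr : 0 ≤ r) :
    ∫ θ in (0 : ℝ)..(2 * π), max (k θ) (r * cos (θ - φ)) = 2 * r + Hf k φ + Rf k φ r := by
  have hc : Continuous (fun θ => max (k θ) (r * cos (θ - φ))) := by fun_prop
  have hp : Function.Periodic (fun θ => max (k θ) (r * cos (θ - φ))) (2 * π) := by
    intro θ
    simp only [hper θ]
    rw [show θ + 2 * π - φ = (θ - φ) + 2 * π by ring, cos_add_two_pi]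
  have e1 := hp.intervalIntegral_add_eq 0 (φ - π / 2)
  rw [zero_add] at e1
  rw [e1]
  have e2 : ∫ s in (-(π / 2))..(3 * π / 2), max (k (φ + s)) (r * cos s) =
      ∫ θ in (φ - π / 2)..(φ - π / 2 + 2 * π), max (k θ) (r * cos (θ - φ)) := by
    have := intervalIntegral.integral_comp_add_left (a := -(π / 2)) (b := 3 * π / 2)
      (fun θ => max (k θ) (r * cos (θ - φ))) φ
    simp only [add_sub_cancel_left] at this
    rw [this]
    congr 1
    ring
  rw [← e2]
  have hc2 : Continuous (fun s => max (k (φ + s)) (r * cos s)) := by fun_prop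
  rw [← intervalIntegral.integral_add_adjacent_intervals (hc2.intervalIntegrable (-(π / 2)) (π / 2))
    (hc2.intervalIntegrable (π / 2) (3 * π / 2))]
  have e3 : ∫ s in (π / 2)..(3 * π / 2), max (k (φ + s)) (r * cos s) = Hf k φ := by
    rw [Hf]
    apply intervalIntegral.integral_congr
    intro s hs
    rw [uIcc_of_le (by linarith [pi_pos])] at hs
    apply max_eq_left
    have h1 : cos s ≤ 0 := cos_nonpos_of_pi_div_two_le_of_le hs.1 (by linarith [hs.2])
    have := hpos (φ + s)
    nlinarith
  have e4 : ∫ s in (-(π / 2))..(π / 2), max (k (φ + s)) (r * cos s) = 2 * r + Rf k φ r := by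
    have h1 : ∀ s, max (k (φ + s)) (r * cos s) = r * cos s + max (k (φ + s) - r * cos s) 0 := by
      intro s
      rw [← max_add_add_left]
      congr 1 <;> ring
    simp_rw [h1]
    have hc3 : Continuous (fun s => max (k (φ + s) - r * cos s) 0) := by fun_prop
    have hc4 : Continuous (fun s : ℝ => r * cos s) := by fun_prop
    rw [intervalIntegral.integral_add (hc4.intervalIntegrable _ _) (hc3.intervalIntegrable _ _)]
    rw [Rf]
    congr 1
    simp
    ring
  rw [e3, e4]
  ring

lemma Rf_tendsto {k : ℝ → ℝ} (hk : Continuous k) {M : ℝ} (hM : 0 < M) (hkM : ∀ x, k x ≤ M)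
    (hpos : ∀ θ, 0 < k θ) (φ : ℝ) :
    Tendsto (fun r : ℝ => r * Rf k φ r) atTop
      (𝓝 ((k (φ + π / 2) ^ 2 + k (φ - π / 2) ^ 2) / 2)) := by
  have h1 := layer (q := fun σ => k (φ + π / 2 - σ)) (by fun_prop) hM (fun x => hkM _)
    (hpos _).le
  have h2 := layer (q := fun σ => k (φ - π / 2 + σ)) (by fun_prop) hM (fun x => hkM _)
    (hpos _).le
  have h3 := h1.add h2
  simp only [sub_zero, add_zero] at h3
  have h4 : k (φ + π / 2) ^ 2 / 2 + k (φ - π / 2) ^ 2 / 2 =
      (k (φ + π / 2) ^ 2 + k (φ - π / 2) ^ 2) / 2 := by ring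
  rw [h4] at h3
  apply h3.congr
  intro r
  rw [← mul_add]
  congr 1
  have hc : Continuous (fun s => max (k (φ + s) - r * cos s) 0) := by fun_prop
  rw [Rf, ← intervalIntegral.integral_add_adjacent_intervals (hc.intervalIntegrable (-(π / 2)) 0)
    (hc.intervalIntegrable 0 (π / 2)), add_comm]
  congr 1
  · have := intervalIntegral.integral_comp_add_left (a := (0 : ℝ)) (b := π / 2)
      (fun s => max (k (φ + s) - r * cos s) 0) (-(π / 2))
    simp only [add_zero, neg_add_cancel] at this
    rw [← this]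
    apply intervalIntegral.integral_congr
    intro s _
    simp only
    congr 2
    · congr 1; ring
    · rw [show -(π / 2) + s = -(π / 2 - s) by ring, cos_neg, cos_pi_div_two_sub]
  · have := intervalIntegral.integral_comp_sub_left (a := (0 : ℝ)) (b := π / 2)
      (fun s => max (k (φ + s) - r * cos s) 0) (π / 2)
    simp only [sub_zero, sub_self] at this
    rw [← this]
    apply intervalIntegral.integral_congr
    intro s _
    simp only
    rw [cos_pi_div_two_sub]
    congr 3
    ring

lemma Rf_tendsto_zero {k : ℝ → ℝ} (hk : Continuous k) {M : ℝ} (hM : 0 < M) (hkM : ∀ x, k x ≤ M)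
    (hpos : ∀ θ, 0 < k θ) (φ : ℝ) :
    Tendsto (fun r : ℝ => Rf k φ r) atTop (𝓝 0) := by
  have h1 := Rf_tendsto hk hM hkM hpos φ
  have h2 : Tendsto (fun r : ℝ => r⁻¹) atTop (𝓝 (0 : ℝ)) := tendsto_inv_atTop_zero
  have h3 := h2.mul h1
  rw [zero_mul] at h3
  apply h3.congr'
  filter_upwards [eventually_gt_atTop 0] with r hr
  field_simp

lemma Rf_le {k : ℝ → ℝ} (hk : Continuous k) {M : ℝ} (hM : 0 < M) (hkM : ∀ x, k x ≤ M)
    (φ : ℝ) {r : ℝ} (hr : 0 ≤ r) : Rf k φ r ≤ M * π := by
  have hc : Continuous (fun s => max (k (φ + s) - r * cos s) 0) := by fun_prop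
  have h1 : Rf k φ r ≤ ∫ s in (-(π / 2))..(π / 2), M := by
    apply intervalIntegral.integral_mono_on (by linarith [pi_pos]) (hc.intervalIntegrable _ _)
      intervalIntegrable_const
    intro s hs
    apply max_le _ hM.le
    have := cos_nonneg_of_mem_Icc hs
    have := mul_nonneg hr this
    linarith [hkM (φ + s)]
  rw [intervalIntegral.integral_const, smul_eq_mul] at h1
  linarith

lemma Hf_bound {k : ℝ → ℝ} {M : ℝ} (hkM : ∀ x, |k x| ≤ M)
    (φ : ℝ) : |Hf k φ| ≤ M * π := by
  have h1 := intervalIntegral.norm_integral_le_of_norm_le_const (a := π / 2) (b := 3 * π / 2)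
    (f := fun s => k (φ + s)) (C := M) (fun x _ => hkM _)
  rw [Hf]
  have h2 : |3 * π / 2 - π / 2| = π := by
    rw [show 3 * π / 2 - π / 2 = π by ring, abs_of_pos pi_pos]
  rw [h2] at h1
  exact h1

end Pool.Agent.W562.Str
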