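import Mathlib

set_option autoImplicit false

namespace Pool.Agent.W562.Str

open Set MeasureTheory Real

/-- the Euclidean plane -/
abbrev E2 := EuclideanSpace ℝ (Fin 2)

/-- inner product of `x` with the unit vector of angle `θ` -/
noncomputable def ip (x : E2) (θ : ℝ) : ℝ := x 0 * cos θ + x 1 * sin θ

lemma ip_add (x y : E2) (θ : ℝ) : ip (x + y) θ = ip x θ + ip y θ := by
  simp only [ip, PiLp.add_apply]; ring

lemma ip_sub (x y : E2) (θ : ℝ) : ip (x - y) θ = ip x θ - ip y θ := by
  simp only [ip, PiLp.sub_apply]; ring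

lemma ip_smul (a : ℝ) (x : E2) (θ : ℝ) : ip (a • x) θ = a * ip x θ := by
  simp only [ip, PiLp.smul_apply, smul_eq_mul]; ring

lemma ip_zero (θ : ℝ) : ip 0 θ = 0 := by simp [ip]

lemma norm_sq (x : E2) : ‖x‖ ^ 2 = x 0 ^ 2 + x 1 ^ 2 := by
  rw [EuclideanSpace.norm_sq_eq]; simp

lemma ip_le_norm (x : E2) (θ : ℝ) : ip x θ ≤ ‖x‖ := by
  apply (abs_le_of_sq_le_sq' _ (norm_nonneg x)).2
  rw [norm_sq, ip]
  nlinarith [sq_nonneg (x 0 * sin θ - x 1 * cos θ), sin_sq_add_cos_sq θ]

lemma abs_ip_le_norm (x : E2) (θ : ℝ) : |ip x θ| ≤ ‖x‖ := by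
  apply abs_le_of_sq_le_sq _ (norm_nonneg x)
  rw [norm_sq, ip]
  nlinarith [sq_nonneg (x 0 * sin θ - x 1 * cos θ), sin_sq_add_cos_sq θ]

lemma exists_ip_norm (x : E2) : ∃ θ, x 0 = ‖x‖ * cos θ ∧ x 1 = ‖x‖ * sin θ := by
  set z : ℂ := ⟨x 0, x 1⟩ with hz
  have h : ‖z‖ = ‖x‖ := by
    have h1 : ‖z‖ ^ 2 = ‖x‖ ^ 2 := by
      rw [norm_sq, ← Complex.normSq_eq_norm_sq, Complex.normSq_apply]
      simp only [hz]; ring
    exact (sq_eq_sq₀ (norm_nonneg _) (norm_nonneg _)).mp h1
  refine ⟨z.arg, ?_, ?_⟩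
  · rw [← h, Complex.norm_mul_cos_arg]
  · rw [← h, Complex.norm_mul_sin_arg]

lemma ip_of_polar {x : E2} {θ ρ : ℝ} (h0 : x 0 = ρ * cos θ) (h1 : x 1 = ρ * sin θ) (t : ℝ) :
    ip x t = ρ * cos (t - θ) := by
  rw [ip, h0, h1, cos_sub]; ring

lemma ip_periodic (x : E2) : Function.Periodic (ip x) (2 * π) := by
  intro θ; simp [ip]

lemma ip_add_pi (x : E2) (θ : ℝ) : ip x (θ + π) = - ip x θ := by
  simp [ip, cos_add_pi, sin_add_pi]; ring

lemma continuous_ip (x : E2) : Continuous (ip x) := by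
  unfold ip; fun_prop

lemma continuous_ip_left (θ : ℝ) : Continuous (fun x : E2 => ip x θ) := by
  unfold ip; fun_prop

lemma continuous_ip₂ : Continuous (fun p : E2 × ℝ => ip p.1 p.2) := by
  unfold ip; fun_prop

lemma ip_lip (x : E2) (a b : ℝ) : |ip x a - ip x b| ≤ ‖x‖ * |a - b| := by
  obtain ⟨θ, h0, h1⟩ := exists_ip_norm x
  rw [ip_of_polar h0 h1, ip_of_polar h0 h1, ← mul_sub, abs_mul, abs_of_nonneg (norm_nonneg x)]
  apply mul_le_mul_of_nonneg_left _ (norm_nonneg x)
  have := Real.abs_cos_sub_cos_le (a - θ) (b - θ)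
  simpa using this

/-- the sine relation between three values of `ip` -/
lemma ip_sine (x : E2) (a t b : ℝ) :
    ip x t * sin (b - a) = ip x a * sin (b - t) + ip x b * sin (t - a) := by
  simp only [ip, sin_sub]
  have := sin_sq_add_cos_sq t
  have h2 := sin_sq_add_cos_sq a
  have h3 := sin_sq_add_cos_sq b
  ring

/-- support function -/
noncomputable def supp (K : Set E2) (θ : ℝ) : ℝ := sSup ((fun x => ip x θ) '' K)

section
variable {K : Set E2} (hK : IsCompact K) (hne : K.Nonempty)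

include hK in
lemma bddAbove_ip (θ : ℝ) : BddAbove ((fun x => ip x θ) '' K) :=
  (hK.image (continuous_ip_left θ)).bddAbove

include hK in
lemma ip_le_supp {x : E2} (hx : x ∈ K) (θ : ℝ) : ip x θ ≤ supp K θ :=
  le_csSup (bddAbove_ip hK θ) ⟨x, hx, rfl⟩

include hK hne in
lemma exists_supp (θ : ℝ) : ∃ x ∈ K, ip x θ = supp K θ := by
  obtain ⟨x, hx, h⟩ := (hK.image (continuous_ip_left θ)).sSup_mem (hne.image _)
  exact ⟨x, hx, h⟩

include hne in
lemma supp_le {θ a : ℝ} (h : ∀ x ∈ K, ip x θ ≤ a) : supp K θ ≤ a := by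
  apply csSup_le (hne.image _)
  rintro _ ⟨x, hx, rfl⟩
  exact h x hx

include hK hne in
/-- the support function is determined by its two properties -/
lemma supp_eq {θ a : ℝ} (h1 : ∀ x ∈ K, ip x θ ≤ a) (h2 : ∃ x ∈ K, a ≤ ip x θ) : supp K θ = a := by
  apply le_antisymm (supp_le hne h1)
  obtain ⟨x, hx, h⟩ := h2
  exact h.trans (ip_le_supp hK hx θ)

lemma supp_periodic : Function.Periodic (supp K) (2 * π) := by
  intro θ
  have : (fun x => ip x (θ + 2 * π)) = fun x => ip x θ := by
    ext x; exact ip_periodic x θ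
  simp only [supp, this]

include hK hne in
lemma supp_lip {M : ℝ} (hM : ∀ x ∈ K, ‖x‖ ≤ M) (a b : ℝ) :
    |supp K a - supp K b| ≤ M * |a - b| := by
  have key : ∀ a b, supp K a - supp K b ≤ M * |a - b| := by
    intro a b
    obtain ⟨x, hx, h⟩ := exists_supp hK hne a
    have h1 := ip_le_supp hK hx b
    have h2 := ip_lip x a b
    have h3 := mul_le_mul_of_nonneg_right (hM x hx) (abs_nonneg (a - b))
    have h4 := le_abs_self (ip x a - ip x b)
    linarith
  rw [abs_le]
  constructor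
  · have := key b a
    rw [abs_sub_comm] at this
    linarith
  · exact key a b

include hK in
lemma exists_bound : ∃ M, 0 < M ∧ ∀ x ∈ K, ‖x‖ ≤ M := by
  obtain ⟨B, hB⟩ := hK.isBounded.exists_norm_le
  exact ⟨max B 1, lt_max_of_lt_right one_pos, fun x hx => (hB x hx).trans (le_max_left _ _)⟩

include hK hne in
lemma continuous_supp : Continuous (supp K) := by
  obtain ⟨M, hM0, hM⟩ := exists_bound hK
  have : LipschitzWith (Real.toNNReal M) (supp K) := by
    apply LipschitzWith.of_dist_le_mul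
    intro a b
    rw [Real.dist_eq, Real.dist_eq, Real.coe_toNNReal _ hM0.le]
    exact supp_lip hK hne hM a b
  exact this.continuous

include hK hne in
/-- the sine inequality of support functions -/
lemma supp_sine {a t b : ℝ} (h1 : a ≤ t) (h2 : t ≤ b) (h3 : b - a ≤ π) :
    supp K t * sin (b - a) ≤ supp K a * sin (b - t) + supp K b * sin (t - a) := by
  obtain ⟨x, hx, h⟩ := exists_supp hK hne t
  rw [← h, ip_sine]
  have s1 : 0 ≤ sin (b - t) := sin_nonneg_of_nonneg_of_le_pi (by linarith) (by linarith)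
  have s2 : 0 ≤ sin (t - a) := sin_nonneg_of_nonneg_of_le_pi (by linarith) (by linarith)
  have := mul_le_mul_of_nonneg_right (ip_le_supp hK hx a) s1
  have := mul_le_mul_of_nonneg_right (ip_le_supp hK hx b) s2
  linarith

include hK hne in
lemma supp_add_pi (θ : ℝ) : 0 ≤ supp K θ + supp K (θ + π) := by
  obtain ⟨x, hx⟩ := hne
  have h1 := ip_le_supp hK hx θ
  have h2 := ip_le_supp hK hx (θ + π)
  rw [ip_add_pi] at h2
  linarith

end

/-- separation: a point outside a closed convex set is seen by the support function -/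
lemma exists_sep {K : Set E2} (hK : IsCompact K) (hc : Convex ℝ K) (hne : K.Nonempty) {x : E2}
    (hx : x ∉ K) : ∃ θ, supp K θ < ip x θ := by
  obtain ⟨f, u, h1, h2⟩ := geometric_hahn_banach_closed_point hc hK.isClosed hx
  set w : E2 := (InnerProductSpace.toDual ℝ E2).symm f with hw
  have hf : ∀ y : E2, f y = w 0 * y 0 + w 1 * y 1 := by
    intro y
    have h3 : f y = inner ℝ w y := by
      rw [hw, InnerProductSpace.toDual_symm_apply]
    rw [h3, PiLp.inner_apply, Fin.sum_univ_two]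
    simp only [RCLike.inner_apply, conj_trivial]
    ring
  obtain ⟨θ, e0, e1⟩ := exists_ip_norm w
  have hf' : ∀ y : E2, f y = ‖w‖ * ip y θ := by
    intro y
    rw [hf, e0, e1, ip]; ring
  have hw0 : 0 < ‖w‖ := by
    rcases (norm_nonneg w).eq_or_lt with h | h
    · exfalso
      obtain ⟨y, hy⟩ := hne
      have := (h1 y hy).trans h2
      rw [hf', hf', ← h] at this
      simp at this
    · exact h
  refine ⟨θ, ?_⟩
  have h3 : supp K θ ≤ u / ‖w‖ := by
    apply supp_le hne
    intro y hy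
    rw [le_div_iff₀ hw0, mul_comm, ← hf']
    exact (h1 y hy).le
  have h4 : u / ‖w‖ < ip x θ := by
    rw [div_lt_iff₀ hw0, mul_comm, ← hf']
    exact h2
  linarith

lemma mem_iff {K : Set E2} (hK : IsCompact K) (hc : Convex ℝ K) (hne : K.Nonempty) {x : E2} :
    x ∈ K ↔ ∀ θ, ip x θ ≤ supp K θ := by
  constructor
  · intro h θ; exact ip_le_supp hK h θ
  · intro h
    by_contra hx
    obtain ⟨θ, hθ⟩ := exists_sep hK hc hne hx
    exact absurd (h θ) (not_le.mpr hθ)

lemma hull_insert_compact {K : Set E2} (hK : IsCompact K) (hc : Convex ℝ K) (hne : K.Nonempty)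
    (y : E2) : IsCompact (convexHull ℝ (insert y K)) := by
  have h1 : convexHull ℝ (insert y K) =
      (fun p : ℝ × E2 => (1 - p.1) • y + p.1 • p.2) '' (Icc (0 : ℝ) 1 ×ˢ K) := by
    rw [convexHull_insert hne, hc.convexHull_eq, convexJoin_singleton_left]
    ext z
    simp only [mem_iUnion, mem_image, mem_prod, Prod.exists, exists_prop]
    constructor
    · rintro ⟨w, hw, hz⟩
      rw [segment_eq_image] at hz
      obtain ⟨t, ht, rfl⟩ := hz
      exact ⟨t, w, ⟨ht, hw⟩, rfl⟩
    · rintro ⟨t, w, ⟨ht, hw⟩, rfl⟩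
      refine ⟨w, hw, ?_⟩
      rw [segment_eq_image]
      exact ⟨t, ht, rfl⟩
  rw [h1]
  apply (isCompact_Icc.prod hK).image
  fun_prop

/-- support function of the hull with one more point -/
lemma supp_insert {K : Set E2} (hK : IsCompact K) (hc : Convex ℝ K) (hne : K.Nonempty) (y : E2)
    (θ : ℝ) : supp (convexHull ℝ (insert y K)) θ = max (supp K θ) (ip y θ) := by
  have hcomp : IsCompact (convexHull ℝ (insert y K)) := hull_insert_compact hK hc hne y
  apply supp_eq hcomp ((insert_nonempty y K).convexHull)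
  · intro x hx
    have hconv : Convex ℝ {x : E2 | ip x θ ≤ max (supp K θ) (ip y θ)} := by
      intro p hp q hq a b ha hb hab
      have hp' : ip p θ ≤ max (supp K θ) (ip y θ) := hp
      have hq' : ip q θ ≤ max (supp K θ) (ip y θ) := hq
      show ip (a • p + b • q) θ ≤ max (supp K θ) (ip y θ)
      rw [ip_add, ip_smul, ip_smul]
      calc a * ip p θ + b * ip q θ ≤ a * max (supp K θ) (ip y θ) + b * max (supp K θ) (ip y θ) := by
            gcongr
        _ = max (supp K θ) (ip y θ) := by rw [← add_mul, hab, one_mul]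
    have hsub : insert y K ⊆ {x : E2 | ip x θ ≤ max (supp K θ) (ip y θ)} := by
      intro z hz
      show ip z θ ≤ max (supp K θ) (ip y θ)
      rcases hz with rfl | hz
      · exact le_max_right _ _
      · exact (ip_le_supp hK hz θ).trans (le_max_left _ _)
    exact convexHull_min hsub hconv hx
  · rcases le_total (supp K θ) (ip y θ) with h | h
    · refine ⟨y, subset_convexHull ℝ _ (mem_insert y K), ?_⟩
      rw [max_eq_right h]
    · obtain ⟨x, hx, e⟩ := exists_supp hK hne θ
      refine ⟨x, subset_convexHull ℝ _ (mem_insert_of_mem y hx), ?_⟩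
      rw [max_eq_left h, e]

end Pool.Agent.W562.Str
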