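import Pool.Agent.W562.Str.Poly

set_option autoImplicit false

namespace Pool.Agent.W562.Str

open Set MeasureTheory Real Metric Filter Topology
open scoped Pointwise ENNReal

section
variable {s : ℝ → ℝ} (hs : IsSF s) {n : ℕ} (hn : 3 ≤ n) {ε : ℝ} (hε : ε = 2 * π / n)

lemma ip_eq_zero {z : E2} {a b : ℝ} (h1 : ip z a = 0) (h2 : ip z b = 0) (h3 : sin (b - a) ≠ 0) :
    z = 0 := by
  have e0 : z 0 * sin (b - a) = 0 := by
    rw [sin_sub]; simp only [ip] at h1 h2; linear_combination (sin b) * h1 - (sin a) * h2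
  have e1 : z 1 * sin (b - a) = 0 := by
    rw [sin_sub]; simp only [ip] at h1 h2; linear_combination (cos a) * h2 - (cos b) * h1
  ext i
  fin_cases i
  · simpa using (mul_eq_zero.mp e0).resolve_right h3
  · simpa using (mul_eq_zero.mp e1).resolve_right h3

include hs hn hε in
lemma edge_inter {i j : ℕ} (hij : i < j) (hj : j < n) :
    (edge s ε i ∩ edge s ε j).Subsingleton := by
  have he := eps_pos hn hε
  have hne := n_eps hn hε
  have hij' : (i : ℝ) + 1 ≤ j := by exact_mod_cast hij
  have hj' : (j : ℝ) + 1 ≤ n := by exact_mod_cast hj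
  have hi0 : (0 : ℝ) ≤ i := by positivity
  rintro x ⟨⟨hx1, -, -⟩, ⟨hx2, -, -⟩⟩ y ⟨⟨hy1, -, -⟩, ⟨hy2, -, -⟩⟩
  push_cast at hx1 hx2 hy1 hy2
  have hd0 : 0 < (j : ℝ) * ε - i * ε := by nlinarith
  have hd1 : (j : ℝ) * ε - i * ε < 2 * π := by nlinarith
  by_cases hsin : sin ((j : ℝ) * ε - i * ε) = 0
  · exfalso
    have hpi : (j : ℝ) * ε - i * ε = π := by
      rcases lt_trichotomy ((j : ℝ) * ε - i * ε) π with h | h | h
      · exact absurd hsin (sin_pos_of_pos_of_lt_pi hd0 h).ne'
      · exact h
      · exfalso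
        have h4 : sin ((j : ℝ) * ε - i * ε - π) = 0 := by rw [sin_sub_pi, hsin, neg_zero]
        exact absurd h4 (sin_pos_of_pos_of_lt_pi (by linarith) (by linarith)).ne'
    have h5 : (j : ℝ) * ε = i * ε + π := by linarith
    rw [h5, ip_add_pi, hx1] at hx2
    have := hs.opp (i * ε)
    linarith
  · have hz : x - y = 0 := by
      apply ip_eq_zero (a := i * ε) (b := j * ε) _ _ hsin
      · rw [ip_sub, hx1, hy1, sub_self]
      · rw [ip_sub, hx2, hy2, sub_self]
    exact sub_eq_zero.mp hz

include hs hn hε in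
lemma frontier_poly : frontier (poly s ε) = ⋃ j ∈ Finset.range n, edge s ε (j : ℤ) := by
  have hne := n_eps hn hε
  apply Subset.antisymm
  · intro x hx
    have hxp : x ∈ poly s ε := poly_closed.frontier_subset hx
    have h1 : ∃ j : ℕ, j < n ∧ ip x (j * ε) = s (j * ε) := by
      by_contra hcon
      push Not at hcon
      apply hx.2
      rw [mem_interior]
      refine ⟨⋂ j ∈ Finset.range n, {y : E2 | ip y ((j : ℝ) * ε) < s (j * ε)}, ?_, ?_, ?_⟩
      · intro y hy i
        obtain ⟨j, hj, e1, e2⟩ := reduce_index hs hn hε i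
        rw [e1, e2]
        have := mem_iInter₂.mp hy j (Finset.mem_range.mpr hj)
        exact (show ip y ((j : ℝ) * ε) < s (j * ε) from this).le
      · apply isOpen_biInter_finset
        intro j _
        exact isOpen_lt (continuous_ip_left _) continuous_const
      · apply mem_iInter₂.mpr
        intro j hj
        have h2 := hxp (j : ℤ)
        push_cast at h2
        exact lt_of_le_of_ne h2 (hcon j (Finset.mem_range.mp hj))
    obtain ⟨j, hj, hj2⟩ := h1
    apply mem_iUnion₂.mpr
    refine ⟨j, Finset.mem_range.mpr hj, ?_, ?_, ?_⟩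
    · push_cast; exact hj2
    · have := hxp ((j : ℤ) - 1)
      push_cast at this ⊢; exact this
    · have := hxp ((j : ℤ) + 1)
      push_cast at this ⊢; exact this
  · intro x hx
    obtain ⟨j, -, hj⟩ := mem_iUnion₂.mp hx
    have hxp := edge_subset hs hn hε j hj
    refine ⟨subset_closure hxp, ?_⟩
    intro hint
    have hcont : Continuous (fun τ : ℝ => x + τ • pt 1 0 (((j : ℤ) : ℝ) * ε)) := by fun_prop
    have h1 : ∀ᶠ τ in 𝓝 (0 : ℝ), x + τ • pt 1 0 (((j : ℤ) : ℝ) * ε) ∈ poly s ε := by
      apply hcont.continuousAt.preimage_mem_nhds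
      simpa using mem_interior_iff_mem_nhds.mp hint
    have h2 : ∀ᶠ τ in 𝓝[>] (0 : ℝ), x + τ • pt 1 0 (((j : ℤ) : ℝ) * ε) ∈ poly s ε :=
      h1.filter_mono nhdsWithin_le_nhds
    obtain ⟨τ, hτ1, hτ2⟩ := (h2.and self_mem_nhdsWithin).exists
    have h3 := hτ1 (j : ℤ)
    rw [ip_add, ip_smul, ip_pt, hj.1, sub_self, cos_zero, sin_zero] at h3
    have h4 : (0 : ℝ) < τ := hτ2
    linarith

lemma sum_shift (f : ℕ → ℝ) (n : ℕ) (h : f n = f 0) :
    ∑ i ∈ Finset.range n, f (i + 1) = ∑ i ∈ Finset.range n, f i := by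
  have h1 := Finset.sum_range_succ f n
  have h2 := Finset.sum_range_succ' f n
  linarith

include hs hn hε in
lemma perim_poly (hn4 : 4 ≤ n) : (Measure.hausdorffMeasure 1 : Measure E2) (frontier (poly s ε)) =
    ENNReal.ofReal ((2 - 2 * cos ε) / sin ε * ∑ i ∈ Finset.range n, s (i * ε)) := by
  have he := eps_pos hn hε
  have hl := eps_lt hn hε
  have hne := n_eps hn hε
  have hsin : 0 < sin ε := sin_pos_of_pos_of_lt_pi he hl
  haveI : NullSingletonClass (Measure.hausdorffMeasure 1 : Measure E2) :=
    Measure.nullSingletonClass_hausdorff E2 one_pos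
  rw [frontier_poly hs hn hε, measure_biUnion_finset₀]
  · have h1 : ∀ i ∈ Finset.range n, (Measure.hausdorffMeasure 1 : Measure E2) (edge s ε (i : ℤ)) =
        ENNReal.ofReal ((s ((i + 1) * ε) + s ((i - 1) * ε) - 2 * s (i * ε) * cos ε) / sin ε) := by
      intro i _
      rw [edge_measure he hl]
      push_cast
      rfl
    rw [Finset.sum_congr rfl h1, ← ENNReal.ofReal_sum_of_nonneg]
    · congr 1
      rw [← Finset.sum_div, Finset.sum_sub_distrib, Finset.sum_add_distrib]
      have e1 : ∑ i ∈ Finset.range n, s (((i : ℝ) + 1) * ε) = ∑ i ∈ Finset.range n, s (i * ε) := by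
        have := sum_shift (fun i => s ((i : ℝ) * ε)) n (by
          simp only [hne]
          have := hs.per 0
          simpa using this)
        simpa using this
      have e2 : ∑ i ∈ Finset.range n, s (((i : ℝ) - 1) * ε) = ∑ i ∈ Finset.range n, s (i * ε) := by
        have := sum_shift (fun i => s (((i : ℝ) - 1) * ε)) n (by
          have h5 : ((n : ℝ) - 1) * ε = ((0 : ℕ) - 1 : ℝ) * ε + 2 * π := by
            rw [← hne]; push_cast; ring
          rw [h5]
          exact hs.per _)
        rw [← this]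
        apply Finset.sum_congr rfl
        intro i _
        congr 1
        push_cast; ring
      have e3 : ∑ i ∈ Finset.range n, 2 * s ((i : ℝ) * ε) * cos ε =
          2 * cos ε * ∑ i ∈ Finset.range n, s (i * ε) := by
        rw [Finset.mul_sum]
        apply Finset.sum_congr rfl
        intro i _; ring
      rw [e1, e2, e3]
      ring
    · intro i _
      apply div_nonneg _ hsin.le
      have h2 := hs.sine ((i - 1) * ε) (i * ε) ((i + 1) * ε) (by nlinarith) (by nlinarith) (by
        have h3 : (4 : ℝ) ≤ n := by exact_mod_cast hn4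
        nlinarith)
      have e1 : (i + 1) * ε - (i - 1) * ε = 2 * ε := by ring
      have e2 : (i + 1) * ε - i * ε = ε := by ring
      have e3 : i * ε - (i - 1) * ε = ε := by ring
      rw [e1, e2, e3, sin_two_mul] at h2
      have h4 : (2 * s (i * ε) * cos ε) * sin ε ≤ (s ((i + 1) * ε) + s ((i - 1) * ε)) * sin ε := by
        linarith
      have := le_of_mul_le_mul_right h4 hsin
      linarith
  · intro i hi j hj hij
    have hi' : i < n := by simpa using hi
    have hj' : j < n := by simpa using hj
    rcases lt_or_gt_of_ne hij with h | h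
    · exact (edge_inter hs hn hε h hj').measure_zero _
    · have := (edge_inter hs hn hε h hi').measure_zero (Measure.hausdorffMeasure 1 : Measure E2)
      show (Measure.hausdorffMeasure 1 : Measure E2) (edge s ε (i : ℤ) ∩ edge s ε (j : ℤ)) = 0
      rw [inter_comm]; exact this
  · intro i _
    exact (edge_closed _).measurableSet.nullMeasurableSet

end

end Pool.Agent.W562.Str
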