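import Pool.Agent.W562.Str.Cauchy

set_option autoImplicit false

namespace Pool.Agent.W562.Str

open Set MeasureTheory Real Metric Filter Topology
open scoped Pointwise ENNReal

lemma riemann {s : ℝ → ℝ} (hc : Continuous s) {M : ℝ} (hM : ∀ a b, |s a - s b| ≤ M * |a - b|)
    {n : ℕ} (hn : 3 ≤ n) {ε : ℝ} (hε : ε = 2 * π / n) :
    |(∫ θ in (0 : ℝ)..(2 * π), s θ) - ε * ∑ i ∈ Finset.range n, s (i * ε)| ≤ 2 * π * M * ε := by
  have he := eps_pos hn hε
  have hne := n_eps hn hε
  have h1 : ∑ k ∈ Finset.range n, ∫ x in ((k : ℝ) * ε)..(((k + 1 : ℕ) : ℝ) * ε), s x =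
      ∫ x in (0 : ℝ)..(2 * π), s x := by
    have := intervalIntegral.sum_integral_adjacent_intervals (f := s) (μ := volume)
      (a := fun k : ℕ => (k : ℝ) * ε) (n := n) (fun k _ => hc.intervalIntegrable _ _)
    rw [this]
    simp [hne]
  rw [← h1, Finset.mul_sum, ← Finset.sum_sub_distrib]
  have h2 : ∀ k ∈ Finset.range n, |(∫ x in ((k : ℝ) * ε)..(((k + 1 : ℕ) : ℝ) * ε), s x) -
      ε * s (k * ε)| ≤ M * ε * ε := by
    intro k _
    have e1 : (((k + 1 : ℕ) : ℝ) * ε) - k * ε = ε := by push_cast; ring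
    have e2 : ε * s (k * ε) = ∫ x in ((k : ℝ) * ε)..(((k + 1 : ℕ) : ℝ) * ε), s (k * ε) := by
      rw [intervalIntegral.integral_const, e1, smul_eq_mul]
    rw [e2, ← intervalIntegral.integral_sub (hc.intervalIntegrable _ _) (by simp)]
    have h3 := intervalIntegral.norm_integral_le_of_norm_le_const (a := (k : ℝ) * ε)
      (b := ((k + 1 : ℕ) : ℝ) * ε) (f := fun x => s x - s (k * ε)) (C := M * ε) (by
        intro x hx
        rw [uIoc_of_le (by push_cast; nlinarith)] at hx
        have h4 : |x - k * ε| ≤ ε := by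
          rw [abs_of_nonneg (by linarith [hx.1])]
          have := hx.2
          push_cast at this
          linarith
        have hM0 : 0 ≤ M := by
          have := hM 1 0
          simp only [sub_zero, abs_one, mul_one] at this
          exact (abs_nonneg _).trans this
        exact (hM x (k * ε)).trans (mul_le_mul_of_nonneg_left h4 hM0))
    rw [e1, abs_of_pos he] at h3
    exact h3
  calc |∑ k ∈ Finset.range n, ((∫ x in ((k : ℝ) * ε)..(((k + 1 : ℕ) : ℝ) * ε), s x) -
      ε * s (k * ε))| ≤ ∑ k ∈ Finset.range n, |(∫ x in ((k : ℝ) * ε)..(((k + 1 : ℕ) : ℝ) * ε), s x) -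
      ε * s (k * ε)| := Finset.abs_sum_le_sum_abs _ _
    _ ≤ ∑ k ∈ Finset.range n, M * ε * ε := Finset.sum_le_sum h2
    _ = n * (M * ε * ε) := by rw [Finset.sum_const, Finset.card_range, nsmul_eq_mul]
    _ = (n * ε) * M * ε := by ring
    _ = 2 * π * M * ε := by rw [hne]

lemma tan_half {ε : ℝ} (h0 : 0 < ε) (h1 : ε < π) : (2 - 2 * cos ε) / sin ε = 2 * tan (ε / 2) := by
  have hs : 0 < sin (ε / 2) := sin_pos_of_pos_of_lt_pi (by linarith) (by linarith [pi_pos])
  have hc : 0 < cos (ε / 2) := cos_pos_of_mem_Ioo ⟨by linarith [pi_pos], by linarith⟩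
  have e1 : cos ε = 1 - 2 * sin (ε / 2) ^ 2 := by
    have := cos_two_mul (ε / 2)
    rw [show 2 * (ε / 2) = ε by ring] at this
    have h2 := sin_sq_add_cos_sq (ε / 2)
    linarith
  have e2 : sin ε = 2 * sin (ε / 2) * cos (ε / 2) := by
    have := sin_two_mul (ε / 2)
    rwa [show 2 * (ε / 2) = ε by ring] at this
  rw [e1, e2, tan_eq_sin_div_cos]
  field_simp
  ring

lemma tan_div_tendsto : Tendsto (fun x : ℝ => tan x / x) (𝓝[≠] 0) (𝓝 1) := by
  have h1 : HasDerivAt tan (1 / cos 0 ^ 2) 0 := hasDerivAt_tan (by simp)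
  have h2 := h1.tendsto_slope
  simp only [cos_zero, one_pow, div_one] at h2
  apply h2.congr
  intro x
  simp [slope_def_field]

/-- the perimeter of the circumscribed polygons tends to the integral of the support function -/
lemma approx_tendsto {s : ℝ → ℝ} (hc : Continuous s) {M : ℝ}
    (hM : ∀ a b, |s a - s b| ≤ M * |a - b|) :
    Tendsto (fun n : ℕ => (2 - 2 * cos (2 * π / n)) / sin (2 * π / n) *
      ∑ i ∈ Finset.range n, s (i * (2 * π / n))) atTop (𝓝 (∫ θ in (0 : ℝ)..(2 * π), s θ)) := by
  have he : Tendsto (fun n : ℕ => 2 * π / (n : ℝ)) atTop (𝓝 0) :=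
    tendsto_const_nhds.div_atTop tendsto_natCast_atTop_atTop
  have h1 : Tendsto (fun n : ℕ => (2 * π / (n : ℝ)) * ∑ i ∈ Finset.range n, s (i * (2 * π / n)))
      atTop (𝓝 (∫ θ in (0 : ℝ)..(2 * π), s θ)) := by
    rw [tendsto_iff_norm_sub_tendsto_zero]
    have h2 : Tendsto (fun n : ℕ => 2 * π * M * (2 * π / (n : ℝ))) atTop (𝓝 0) := by
      simpa using he.const_mul (2 * π * M)
    apply squeeze_zero' _ _ h2
    · exact Eventually.of_forall fun n => norm_nonneg _
    · filter_upwards [eventually_ge_atTop 3] with n hn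
      rw [norm_sub_rev]
      exact riemann hc hM hn rfl
  have h3 : Tendsto (fun n : ℕ => tan ((2 * π / (n : ℝ)) / 2) / ((2 * π / (n : ℝ)) / 2)) atTop (𝓝 1) := by
    apply tan_div_tendsto.comp
    rw [tendsto_nhdsWithin_iff]
    constructor
    · simpa using he.div_const 2
    · filter_upwards [eventually_ge_atTop 1] with n hn
      have : (0 : ℝ) < n := by exact_mod_cast hn
      have hp := pi_pos
      have : 0 < (2 * π / (n : ℝ)) / 2 := by positivity
      exact this.ne'
  have h4 := h3.mul h1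
  rw [one_mul] at h4
  apply h4.congr'
  filter_upwards [eventually_ge_atTop 3] with n hn
  have hp := eps_pos hn rfl
  have hl := eps_lt hn rfl
  rw [tan_half hp hl]
  field_simp

section
variable {K : Set E2} (hK : IsCompact K) (hc : Convex ℝ K) {r : ℝ} (hr : 0 < r)
  (hball : closedBall (0 : E2) r ⊆ K)

include hK hr hball in
lemma supp_ge (θ : ℝ) : r ≤ supp K θ := by
  have h1 : pt r 0 θ ∈ K := by
    apply hball
    rw [mem_closedBall, dist_zero_right]
    have : ‖pt r 0 θ‖ ^ 2 = r ^ 2 := by
      rw [norm_sq]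
      simp only [pt, Matrix.cons_val_zero, Matrix.cons_val_one]
      have := sin_sq_add_cos_sq θ
      linear_combination r ^ 2 * this
    exact ((sq_eq_sq₀ (norm_nonneg _) hr.le).mp this).le
  have h2 := ip_le_supp hK h1 θ
  rw [ip_pt, sub_self, cos_zero, sin_zero] at h2
  linarith

include hK hr hball in
lemma isSF : IsSF (supp K) := by
  have hne : K.Nonempty := ⟨0, hball (by simp [hr.le])⟩
  refine ⟨supp_periodic, fun a t b h1 h2 h3 => supp_sine hK hne h1 h2 h3, fun a => ?_⟩
  have h1 := supp_ge hK hr hball a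
  have h2 := supp_ge hK hr hball (a + π)
  linarith

include hK hc hr hball in
/-- **Cauchy's formula** for a convex body with the origin in its interior -/
theorem cauchy0 : (Measure.hausdorffMeasure 1 : Measure E2) (frontier K) =
    ENNReal.ofReal (∫ θ in (0 : ℝ)..(2 * π), supp K θ) := by
  have hne : K.Nonempty := ⟨0, hball (by simp [hr.le])⟩
  obtain ⟨M, hM0, hM⟩ := exists_bound hK
  have hs := isSF hK hr hball
  have hlip : ∀ a b, |supp K a - supp K b| ≤ M * |a - b| := fun a b => supp_lip hK hne hM a b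
  have hcont := continuous_supp hK hne
  have hsuppM : ∀ θ, supp K θ ≤ M := fun θ => supp_le hne fun x hx => (ip_le_norm x θ).trans (hM x hx)
  have hA := approx_tendsto hcont hlip
  set A : ℕ → ℝ := fun n : ℕ => (2 - 2 * cos (2 * π / n)) / sin (2 * π / n) *
      ∑ i ∈ Finset.range n, supp K (i * (2 * π / n)) with hAdef
  set P := (Measure.hausdorffMeasure 1 : Measure E2) (frontier K) with hP
  have hint : (interior K).Nonempty := by
    refine ⟨0, ?_⟩
    rw [mem_interior_iff_mem_nhds]
    exact Filter.mem_of_superset (closedBall_mem_nhds 0 hr) hball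
  -- geometry of the polygon
  have hpoly : ∀ n : ℕ, 7 ≤ n → ∀ x ∈ poly (supp K) (2 * π / n), ∀ t : ℝ,
      ‖x‖ ≤ 2 * M ∧ ip x t ≤ supp K t + (3 * M / 2) * (2 * π / n) := by
    intro n hn x hx
    set ε : ℝ := 2 * π / n with hε
    have he := eps_pos (n := n) (by omega) hε
    have hne' := n_eps (n := n) (by omega) hε
    have he1 : ε ≤ 1 := by
      have h7 : (7 : ℝ) ≤ n := by exact_mod_cast hn
      have := pi_lt_d2
      nlinarith
    have hnear : ∀ t : ℝ, ip x t ≤ supp K t + (M + ‖x‖) * (ε / 2) := by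
      intro t
      set i : ℤ := round (t / ε) with hi
      have h1 : |t - i * ε| ≤ ε / 2 := by
        have h2 := abs_sub_round (t / ε)
        have h3 : t - i * ε = (t / ε - i) * ε := by field_simp
        rw [h3, abs_mul, abs_of_pos he]
        nlinarith
      have h4 := hx i
      have h5 := ip_lip x t (i * ε)
      have h6 := hlip (i * ε) t
      rw [abs_sub_comm (i * ε) t] at h6
      have h7 := mul_le_mul_of_nonneg_left h1 (norm_nonneg x)
      have h8 := mul_le_mul_of_nonneg_left h1 hM0.le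
      have h9 := (abs_le.mp (h5.trans h7)).2
      have h10 := (abs_le.mp (h6.trans h8)).2
      linarith
    have hnorm : ‖x‖ ≤ 2 * M := by
      obtain ⟨θ, e0, e1⟩ := exists_ip_norm x
      have h1 : ip x θ = ‖x‖ := by rw [ip_of_polar e0 e1, sub_self, cos_zero, mul_one]
      set i : ℤ := round (θ / ε) with hi
      have h2 : |θ - i * ε| ≤ ε / 2 := by
        have h2 := abs_sub_round (θ / ε)
        have h3 : θ - i * ε = (θ / ε - i) * ε := by field_simp
        rw [h3, abs_mul, abs_of_pos he]
        nlinarith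
      have h4 := hx i
      have h5 := ip_lip x θ (i * ε)
      have h7 := mul_le_mul_of_nonneg_left h2 (norm_nonneg x)
      have h9 := (abs_le.mp (h5.trans h7)).2
      have h10 := hsuppM (i * ε)
      rw [h1] at h9
      nlinarith [norm_nonneg x]
    intro t
    refine ⟨hnorm, ?_⟩
    have h1 := hnear t
    nlinarith
  have hpolyc : ∀ n : ℕ, 7 ≤ n → IsCompact (poly (supp K) (2 * π / n)) := by
    intro n hn
    apply Metric.isCompact_of_isClosed_isBounded poly_closed
    rw [isBounded_iff_forall_norm_le]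
    exact ⟨2 * M, fun x hx => (hpoly n hn x hx 0).1⟩
  have hsub : ∀ n : ℕ, K ⊆ poly (supp K) (2 * π / n) := fun n x hx i => ip_le_supp hK hx _
  -- upper bound
  have hup : ∀ n : ℕ, 7 ≤ n → P ≤ ENNReal.ofReal (A n) := by
    intro n hn
    have := perim_mono hc hK hint (hpolyc n hn) (hsub n)
    rwa [perim_poly hs (by omega) rfl (by omega)] at this
  -- lower bound
  set δ : ℕ → ℝ := fun n => (3 * M / (2 * r)) * (2 * π / n) with hδ
  have hδ0 : ∀ n : ℕ, 0 ≤ δ n := by
    intro n; simp only [hδ]; have := pi_pos; positivity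
  have hlow : ∀ n : ℕ, 7 ≤ n → ENNReal.ofReal (A n / (1 + δ n)) ≤ P := by
    intro n hn
    have hd : 0 < 1 + δ n := by linarith [hδ0 n]
    have h1 : ((1 + δ n)⁻¹ • poly (supp K) (2 * π / n)) ⊆ K := by
      rintro _ ⟨x, hx, rfl⟩
      rw [mem_iff hK hc hne]
      intro θ
      show ip ((1 + δ n)⁻¹ • x) θ ≤ supp K θ
      rw [ip_smul, inv_mul_le_iff₀ hd]
      have h2 := (hpoly n hn x hx θ).2
      have h3 := supp_ge hK hr hball θ
      have h4 : (3 * M / 2) * (2 * π / n) ≤ δ n * supp K θ := by
        have h5 : (3 * M / 2) * (2 * π / n) = δ n * r := by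
          simp only [hδ]; field_simp
        rw [h5]
        exact mul_le_mul_of_nonneg_left h3 (hδ0 n)
      linarith
    have h2 : IsCompact ((1 + δ n)⁻¹ • poly (supp K) (2 * π / n)) := (hpolyc n hn).smul _
    have h3 : Convex ℝ ((1 + δ n)⁻¹ • poly (supp K) (2 * π / n)) := poly_convex.smul _
    have h4 : (interior ((1 + δ n)⁻¹ • poly (supp K) (2 * π / n))).Nonempty := by
      obtain ⟨y, hy⟩ := hint
      rw [interior_smul₀ (inv_pos.mpr hd).ne']
      exact ⟨_, smul_mem_smul_set (interior_mono (hsub n) hy)⟩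
    have h5 := perim_mono h3 h2 h4 hK h1
    rw [perim_smul (inv_pos.mpr hd), perim_poly hs (by omega) rfl (by omega),
      ← ENNReal.ofReal_mul (inv_pos.mpr hd).le] at h5
    rw [div_eq_inv_mul]
    exact h5
  have hfin : P ≠ ⊤ := ne_top_of_le_ne_top ENNReal.ofReal_ne_top (hup 7 le_rfl)
  have hI0 : 0 ≤ ∫ θ in (0 : ℝ)..(2 * π), supp K θ := by
    apply intervalIntegral.integral_nonneg (by linarith [pi_pos])
    intro θ _
    linarith [supp_ge hK hr hball θ]
  have hA0 : ∀ n : ℕ, 7 ≤ n → 0 ≤ A n := by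
    intro n hn
    simp only [hAdef]
    have hp := eps_pos (n := n) (by omega) rfl
    have hl := eps_lt (n := n) (by omega) rfl
    apply mul_nonneg
    · apply div_nonneg
      · linarith [cos_le_one (2 * π / (n : ℝ))]
      · exact (sin_pos_of_pos_of_lt_pi hp hl).le
    · exact Finset.sum_nonneg fun i _ => by linarith [supp_ge hK hr hball ((i : ℝ) * (2 * π / n))]
  have h1 : P.toReal ≤ ∫ θ in (0 : ℝ)..(2 * π), supp K θ := by
    apply ge_of_tendsto hA
    filter_upwards [eventually_ge_atTop 7] with n hn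
    exact ENNReal.toReal_le_of_le_ofReal (hA0 n hn) (hup n hn)
  have h2 : (∫ θ in (0 : ℝ)..(2 * π), supp K θ) ≤ P.toReal := by
    have hδt : Tendsto δ atTop (𝓝 0) := by
      have he : Tendsto (fun n : ℕ => 2 * π / (n : ℝ)) atTop (𝓝 0) :=
        tendsto_const_nhds.div_atTop tendsto_natCast_atTop_atTop
      simpa using he.const_mul (3 * M / (2 * r))
    have h3 : Tendsto (fun n => A n / (1 + δ n)) atTop (𝓝 (∫ θ in (0 : ℝ)..(2 * π), supp K θ)) := by
      have h8 := hA.div (hδt.const_add 1) (by norm_num)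
      have h9 : Tendsto (A / fun x => 1 + δ x) atTop
          (𝓝 (∫ θ in (0 : ℝ)..(2 * π), supp K θ)) := by simpa using h8
      exact h9
    apply le_of_tendsto h3
    filter_upwards [eventually_ge_atTop 7] with n hn
    exact (ENNReal.ofReal_le_iff_le_toReal hfin).mp (hlow n hn)
  rw [← ENNReal.ofReal_toReal hfin, le_antisymm h1 h2]

end

lemma supp_sub {K : Set E2} (hK : IsCompact K) (hne : K.Nonempty) (c : E2) (θ : ℝ) :
    supp ((fun x => x - c) '' K) θ = supp K θ - ip c θ := by
  have hc : Continuous (fun x : E2 => x - c) := by fun_prop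
  apply supp_eq (hK.image hc) (hne.image _)
  · rintro _ ⟨x, hx, rfl⟩
    simp only [ip_sub]
    linarith [ip_le_supp hK hx θ]
  · obtain ⟨x, hx, h⟩ := exists_supp hK hne θ
    refine ⟨x - c, ⟨x, hx, rfl⟩, ?_⟩
    rw [ip_sub, h]

lemma integral_ip (c : E2) : ∫ θ in (0 : ℝ)..(2 * π), ip c θ = 0 := by
  have h1 : IntervalIntegrable (fun θ => c 0 * cos θ) volume 0 (2 * π) :=
    (continuous_const.mul continuous_cos).intervalIntegrable _ _
  have h2 : IntervalIntegrable (fun θ => c 1 * sin θ) volume 0 (2 * π) :=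
    (continuous_const.mul continuous_sin).intervalIntegrable _ _
  simp only [ip]
  rw [intervalIntegral.integral_add h1 h2]
  simp

/-- **Cauchy's formula**: the boundary length of a convex body is the integral of its support
function. -/
theorem cauchy {K : Set E2} (hK : IsCompact K) (hc : Convex ℝ K) (hi : (interior K).Nonempty) :
    (Measure.hausdorffMeasure 1 : Measure E2) (frontier K) =
      ENNReal.ofReal (∫ θ in (0 : ℝ)..(2 * π), supp K θ) := by
  obtain ⟨c, hcK⟩ := hi
  obtain ⟨r, hr, hball⟩ := Metric.nhds_basis_closedBall.mem_iff.mp (mem_interior_iff_mem_nhds.mp hcK)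
  have hne : K.Nonempty := ⟨c, hball (by simp [hr.le])⟩
  set K' := (fun x => x - c) '' K with hK'
  have hcont : Continuous (fun x : E2 => x - c) := by fun_prop
  have hc' : Convex ℝ K' := by
    have := hc.translate (-c)
    have h2 : (fun x => x - c) '' K = (fun z => -c + z) '' K := by
      apply image_congr; intro x _; show x - c = -c + x; abel
    rw [hK', h2]; exact this
  have hball' : closedBall (0 : E2) r ⊆ K' := by
    intro x hx
    refine ⟨x + c, hball ?_, by simp⟩
    simpa [mem_closedBall, dist_eq_norm] using hx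
  have h1 := cauchy0 (hK.image hcont) hc' hr hball'
  rw [perim_translate] at h1
  rw [h1]
  congr 1
  have h2 : ∀ θ, supp ((fun x => x - c) '' K) θ = supp K θ - ip c θ := supp_sub hK hne c
  simp_rw [h2]
  rw [intervalIntegral.integral_sub ((continuous_supp hK hne).intervalIntegrable _ _)
    ((continuous_ip c).intervalIntegrable _ _), integral_ip, sub_zero]

/-- the perimeter as a real number -/
theorem cauchy_real {K : Set E2} (hK : IsCompact K) (hc : Convex ℝ K) (hi : (interior K).Nonempty) :
    ((Measure.hausdorffMeasure 1 : Measure E2) (frontier K)).toReal =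
      ∫ θ in (0 : ℝ)..(2 * π), supp K θ := by
  rw [cauchy hK hc hi, ENNReal.toReal_ofReal]
  obtain ⟨x, hx⟩ := hi
  have hne : K.Nonempty := ⟨x, interior_subset hx⟩
  have h1 : ∫ θ in (0 : ℝ)..(2 * π), (supp K θ - ip x θ) = ∫ θ in (0 : ℝ)..(2 * π), supp K θ := by
    rw [intervalIntegral.integral_sub ((continuous_supp hK hne).intervalIntegrable _ _)
      ((continuous_ip x).intervalIntegrable _ _), integral_ip, sub_zero]
  rw [← h1]
  apply intervalIntegral.integral_nonneg (by linarith [pi_pos])
  intro θ _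
  linarith [ip_le_supp hK (interior_subset hx) θ]

end Pool.Agent.W562.Str
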