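import Pool.Agent.W562.Str.FG

set_option autoImplicit false

namespace Pool.Agent.W562.Str

open Set MeasureTheory Real Metric Filter Topology
open scoped Pointwise ENNReal

/-- the transitivity relation between `K` and `L` used below: all large string curves of `L` are
string curves of `K` -/
def Tr (K L : Set E2) : Prop :=
  ∀ l2 : ℝ, per L < l2 → ∃ l3 : ℝ, {y | F L y = l2} = {y | F K y = l3}

lemma kbound {K : Set E2} (hK : Body K) (c : E2) : ∃ M, 0 < M ∧ ∀ θ, |supp K θ - ip c θ| ≤ M := by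
  obtain ⟨M, hM0, -, hM⟩ := exists_supp_bound hK
  refine ⟨M + ‖c‖, by positivity, fun θ => ?_⟩
  calc |supp K θ - ip c θ| ≤ |supp K θ| + |ip c θ| := abs_sub _ _
    _ ≤ M + ‖c‖ := add_le_add (hM θ) (abs_ip_le_norm c θ)

/-- the two leading terms at infinity agree in all directions -/
lemma lemB {K L : Set E2} (hK : Body K) (hL : Body L) (hKL : K ⊆ L) (hT : Tr K L) {c : E2}
    (hc : ∀ θ, 0 < supp K θ - ip c θ) (φ₁ φ₂ : ℝ) :
    Hf (fun θ => supp L θ - supp K θ) φ₁ = Hf (fun θ => supp L θ - supp K θ) φ₂ ∧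
    ((supp L (φ₁ + π / 2) - ip c (φ₁ + π / 2)) ^ 2 + (supp L (φ₁ - π / 2) - ip c (φ₁ - π / 2)) ^ 2) / 2
      - ((supp K (φ₁ + π / 2) - ip c (φ₁ + π / 2)) ^ 2 +
        (supp K (φ₁ - π / 2) - ip c (φ₁ - π / 2)) ^ 2) / 2 =
    ((supp L (φ₂ + π / 2) - ip c (φ₂ + π / 2)) ^ 2 + (supp L (φ₂ - π / 2) - ip c (φ₂ - π / 2)) ^ 2) / 2
      - ((supp K (φ₂ + π / 2) - ip c (φ₂ + π / 2)) ^ 2 +
        (supp K (φ₂ - π / 2) - ip c (φ₂ - π / 2)) ^ 2) / 2 := by
  set kK : ℝ → ℝ := fun θ => supp K θ - ip c θ with hkK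
  set kL : ℝ → ℝ := fun θ => supp L θ - ip c θ with hkL
  have hcK := hK.cont
  have hcL := hL.cont
  have hci := continuous_ip c
  have ckK : Continuous kK := by fun_prop
  have ckL : Continuous kL := by fun_prop
  have hle : ∀ θ, supp K θ ≤ supp L θ := fun θ =>
    supp_le hK.ne fun x hx => ip_le_supp hL.cpt (hKL hx) θ
  have hcL' : ∀ θ, 0 < supp L θ - ip c θ := fun θ => by linarith [hc θ, hle θ]
  obtain ⟨MK, hMK0, hMK⟩ := kbound hK c
  obtain ⟨ML, hML0, hML⟩ := kbound hL c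
  -- radii
  have hrad : ∀ φ : ℝ, ∃ r : ℝ → ℝ, ∀ l, per L < l → 0 ≤ r l ∧ F L (c + pt (r l) 0 φ) = l := by
    intro φ
    have : ∀ l : ℝ, ∃ r : ℝ, per L < l → 0 ≤ r ∧ F L (c + pt r 0 φ) = l := by
      intro l
      by_cases h : per L < l
      · obtain ⟨r, hr⟩ := exists_radius hL hcL' φ h.le
        exact ⟨r, fun _ => hr⟩
      · exact ⟨0, fun h' => absurd h' h⟩
    choose r hr using this
    exact ⟨r, hr⟩
  obtain ⟨r₁, hr₁⟩ := hrad φ₁
  obtain ⟨r₂, hr₂⟩ := hrad φ₂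
  have hev : ∀ᶠ l : ℝ in atTop, per L < l := eventually_gt_atTop _
  have hexp : ∀ φ r, 0 ≤ r → F L (c + pt r 0 φ) = 2 * r + Hf kL φ + Rf kL φ r := fun φ r hr =>
    F_polar hL hcL' φ hr
  have hexpK : ∀ φ r, 0 ≤ r → F K (c + pt r 0 φ) = 2 * r + Hf kK φ + Rf kK φ r := fun φ r hr =>
    F_polar hK hc φ hr
  have hHL : ∀ φ, |Hf kL φ| ≤ ML * π := fun φ => Hf_bound hML φ
  have hRL : ∀ φ r, 0 ≤ r → Rf kL φ r ≤ ML * π := fun φ r hr =>
    Rf_le ckL hML0 (fun x => (le_abs_self _).trans (hML x)) φ hr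
  have hbd : ∀ (φ : ℝ) (r : ℝ → ℝ), (∀ l, per L < l → 0 ≤ r l ∧ F L (c + pt (r l) 0 φ) = l) →
      ∀ l, per L < l → |2 * r l - l| ≤ 2 * ML * π := by
    intro φ r hr l hl
    obtain ⟨h0, h1⟩ := hr l hl
    rw [hexp φ _ h0] at h1
    have h2 := abs_le.mp (hHL φ)
    have h3 := hRL φ _ h0
    have h4 := Rf_nonneg kL φ (r l)
    rw [abs_le]
    constructor <;> linarith
  have htop : ∀ (φ : ℝ) (r : ℝ → ℝ), (∀ l, per L < l → 0 ≤ r l ∧ F L (c + pt (r l) 0 φ) = l) →
      Tendsto r atTop atTop := by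
    intro φ r hr
    apply tendsto_atTop_mono' atTop (f₁ := fun l => (l - 2 * ML * π) / 2)
    · filter_upwards [hev] with l hl
      have := (abs_le.mp (hbd φ r hr l hl)).1
      linarith
    · have : Tendsto (fun l : ℝ => l - 2 * ML * π) atTop atTop :=
        tendsto_atTop_add_const_right _ _ tendsto_id
      exact this.atTop_div_const (by norm_num)
  have ht₁ := htop φ₁ r₁ hr₁
  have ht₂ := htop φ₂ r₂ hr₂
  -- the remainder differences
  set S : ℝ → ℝ → ℝ := fun φ r => Rf kL φ r - Rf kK φ r with hS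
  have hS0 : ∀ φ, Tendsto (S φ) atTop (𝓝 0) := by
    intro φ
    have h1 := Rf_tendsto_zero ckL hML0 (fun x => (le_abs_self _).trans (hML x)) hcL' φ
    have h2 := Rf_tendsto_zero ckK hMK0 (fun x => (le_abs_self _).trans (hMK x)) hc φ
    have := h1.sub h2
    rwa [sub_zero] at this
  have hS1 : ∀ φ, Tendsto (fun r => r * S φ r) atTop
      (𝓝 ((kL (φ + π / 2) ^ 2 + kL (φ - π / 2) ^ 2) / 2 -
        (kK (φ + π / 2) ^ 2 + kK (φ - π / 2) ^ 2) / 2)) := by
    intro φ
    have h1 := Rf_tendsto ckL hML0 (fun x => (le_abs_self _).trans (hML x)) hcL' φ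
    have h2 := Rf_tendsto ckK hMK0 (fun x => (le_abs_self _).trans (hMK x)) hc φ
    apply (h1.sub h2).congr
    intro r
    simp only [hS]; ring
  have hN : ∀ φ, Hf (fun θ => supp L θ - supp K θ) φ = Hf kL φ - Hf kK φ := by
    intro φ
    unfold Hf
    have c1 : Continuous (fun s => kL (φ + s)) := by fun_prop
    have c2 : Continuous (fun s => kK (φ + s)) := by fun_prop
    rw [← intervalIntegral.integral_sub (c1.intervalIntegrable _ _) (c2.intervalIntegrable _ _)]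
    apply intervalIntegral.integral_congr
    intro s _
    simp only [hkK, hkL]
    ring
  -- the exact relation
  have hrel : ∀ l, per L < l → Hf (fun θ => supp L θ - supp K θ) φ₁ + S φ₁ (r₁ l) =
      Hf (fun θ => supp L θ - supp K θ) φ₂ + S φ₂ (r₂ l) := by
    intro l hl
    obtain ⟨l3, hl3⟩ := hT l hl
    have key : ∀ (φ : ℝ) (r : ℝ → ℝ), (∀ l, per L < l → 0 ≤ r l ∧ F L (c + pt (r l) 0 φ) = l) →
        Hf (fun θ => supp L θ - supp K θ) φ + S φ (r l) = l - l3 := by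
      intro φ r hr
      obtain ⟨h0, h1⟩ := hr l hl
      have h2 : F K (c + pt (r l) 0 φ) = l3 := by
        have : c + pt (r l) 0 φ ∈ {y | F L y = l} := h1
        rw [hl3] at this
        exact this
      rw [hexp φ _ h0] at h1
      rw [hexpK φ _ h0] at h2
      rw [hN]
      simp only [hS]
      linarith
    rw [key φ₁ r₁ hr₁, key φ₂ r₂ hr₂]
  have hNeq : Hf (fun θ => supp L θ - supp K θ) φ₁ = Hf (fun θ => supp L θ - supp K θ) φ₂ := by
    have h1 := ((hS0 φ₁).comp ht₁).const_add (Hf (fun θ => supp L θ - supp K θ) φ₁)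
    have h2 := ((hS0 φ₂).comp ht₂).const_add (Hf (fun θ => supp L θ - supp K θ) φ₂)
    rw [add_zero] at h1 h2
    apply tendsto_nhds_unique h1
    apply h2.congr'
    filter_upwards [hev] with l hl
    exact (hrel l hl).symm
  refine ⟨hNeq, ?_⟩
  have hSeq : ∀ l, per L < l → S φ₁ (r₁ l) = S φ₂ (r₂ l) := by
    intro l hl
    have := hrel l hl
    rw [hNeq] at this
    linarith
  have h1 := (hS1 φ₁).comp ht₁
  have h2 := (hS1 φ₂).comp ht₂
  have h3 : Tendsto (fun l => (r₁ l - r₂ l) * S φ₂ (r₂ l)) atTop (𝓝 0) := by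
    rw [tendsto_zero_iff_norm_tendsto_zero]
    have h4 : Tendsto (fun l => (2 * ML * π) * ‖S φ₂ (r₂ l)‖) atTop (𝓝 0) := by
      have := ((hS0 φ₂).comp ht₂).norm.const_mul (2 * ML * π)
      simpa using this
    apply squeeze_zero' _ _ h4
    · exact Eventually.of_forall fun _ => norm_nonneg _
    · filter_upwards [hev] with l hl
      rw [norm_mul]
      apply mul_le_mul_of_nonneg_right _ (norm_nonneg _)
      have a1 := abs_le.mp (hbd φ₁ r₁ hr₁ l hl)
      have a2 := abs_le.mp (hbd φ₂ r₂ hr₂ l hl)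
      rw [Real.norm_eq_abs, abs_le]
      constructor <;> linarith
  have h5 := h2.add h3
  rw [add_zero] at h5
  apply tendsto_nhds_unique h1
  apply h5.congr'
  filter_upwards [hev] with l hl
  simp only [Function.comp]
  rw [hSeq l hl]
  ring

lemma Hf_hasDeriv {w : ℝ → ℝ} (hw : Continuous w) (φ : ℝ) :
    HasDerivAt (Hf w) (w (φ + 3 * π / 2) - w (φ + π / 2)) φ := by
  have h1 : Hf w = fun φ => (∫ t in (0 : ℝ)..(φ + 3 * π / 2), w t) - ∫ t in (0 : ℝ)..(φ + π / 2), w t := by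
    ext φ
    rw [intervalIntegral.integral_interval_sub_left (hw.intervalIntegrable _ _)
      (hw.intervalIntegrable _ _), Hf]
    have := intervalIntegral.integral_comp_add_left (a := π / 2) (b := 3 * π / 2) w φ
    rw [this]
  rw [h1]
  have key : ∀ a : ℝ, HasDerivAt (fun φ => ∫ t in (0 : ℝ)..(φ + a), w t) (w (φ + a)) φ := by
    intro a
    have h2 : HasDerivAt (fun x => ∫ t in (0 : ℝ)..x, w t) (w (φ + a)) (φ + a) :=
      intervalIntegral.integral_hasDerivAt_right (hw.intervalIntegrable _ _)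
        (hw.stronglyMeasurableAtFilter _ _) hw.continuousAt
    have h3 : HasDerivAt (fun φ : ℝ => φ + a) 1 φ := (hasDerivAt_id' φ).add_const a
    have h4 := h2.comp φ h3
    rw [mul_one] at h4
    exact h4
  have e1 : φ + 3 * π / 2 = φ + (3 * π / 2) := by ring
  have k1 := key (3 * π / 2)
  have k2 := key (π / 2)
  have h5 := k1.sub k2
  have e2 : (fun φ => (∫ t in (0 : ℝ)..(φ + 3 * π / 2), w t) - ∫ t in (0 : ℝ)..(φ + π / 2), w t) =
    (fun φ => ∫ t in (0 : ℝ)..(φ + (3 * π / 2)), w t) - fun φ => ∫ t in (0 : ℝ)..(φ + π / 2), w t := by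
    ext φ
    simp only [Pi.sub_apply]
  rw [e2, e1]
  exact h5

lemma lemD {K L : Set E2} (hK : Body K) (hL : Body L) (hKL : K ⊆ L) (hT : Tr K L) {c : E2}
    (hc : ∀ θ, 0 < supp K θ - ip c θ) (θ : ℝ) :
    supp L (θ + π) - supp K (θ + π) = supp L θ - supp K θ := by
  set w : ℝ → ℝ := fun θ => supp L θ - supp K θ with hw
  have hcK := hK.cont
  have hcL := hL.cont
  have cw : Continuous w := by fun_prop
  have h1 := Hf_hasDeriv cw (θ - π / 2)
  have h2 : Hf w = fun _ => Hf w 0 := by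
    ext φ
    exact (lemB hK hL hKL hT hc φ 0).1
  rw [h2] at h1
  have h3 := h1.unique (hasDerivAt_const (θ - π / 2) (Hf w 0))
  have e1 : θ - π / 2 + 3 * π / 2 = θ + π := by ring
  have e2 : θ - π / 2 + π / 2 = θ := by ring
  rw [e1, e2] at h3
  simp only [hw] at h3 ⊢
  linarith

end Pool.Agent.W562.Str
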