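import Pool.Agent.W562.Str.Core

set_option autoImplicit false

namespace Pool.Agent.W562.Str

open Set MeasureTheory Real Metric Filter Topology
open scoped Pointwise ENNReal

lemma body_isSF {K : Set E2} (hK : Body K) : IsSF (supp K) := by
  refine ⟨supp_periodic, fun a t b h1 h2 h3 => supp_sine hK.cpt hK.ne h1 h2 h3, fun a => ?_⟩
  obtain ⟨z, hz⟩ := hK.int
  obtain ⟨r, hr, hball⟩ := Metric.nhds_basis_closedBall.mem_iff.mp (mem_interior_iff_mem_nhds.mp hz)
  have hmem : ∀ t, z + pt r 0 t ∈ K := by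
    intro t
    apply hball
    rw [mem_closedBall, dist_self_add_left]
    have : ‖pt r 0 t‖ ^ 2 = r ^ 2 := by
      rw [norm_sq]
      simp only [pt, Matrix.cons_val_zero, Matrix.cons_val_one]
      have := sin_sq_add_cos_sq t
      linear_combination r ^ 2 * this
    exact ((sq_eq_sq₀ (norm_nonneg _) hr.le).mp this).le
  have h1 := ip_le_supp hK.cpt (hmem a) a
  have h2 := ip_le_supp hK.cpt (hmem (a + π)) (a + π)
  rw [ip_add, ip_pt, sub_self, cos_zero, sin_zero] at h1
  rw [ip_add, ip_pt, sub_self, cos_zero, sin_zero, ip_add_pi] at h2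
  linarith

lemma lemE1 {K : Set E2} (hK : Body K) (θ : ℝ) {l : ℝ} (hl : per K ≤ l) :
    supp (G K l) θ ≤ (l - Hf (supp K) θ) / 2 := by
  apply supp_le (body_G hK hl).ne
  intro x hx
  have hx' : F K x ≤ l := hx
  have := F_lower hK x θ
  linarith

lemma lemE2 {K : Set E2} (hK : Body K) {c : E2} (hc : ∀ θ, 0 < supp K θ - ip c θ) (θ : ℝ) {l r : ℝ}
    (hl : per K ≤ l) (hr : 0 ≤ r) (h : F K (c + pt r 0 θ) = l) :
    (l - Hf (supp K) θ - Rf (fun θ => supp K θ - ip c θ) θ r) / 2 ≤ supp (G K l) θ := by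
  have h1 : c + pt r 0 θ ∈ G K l := h.le
  have h2 := ip_le_supp (body_G hK hl).cpt h1 θ
  rw [ip_add, ip_pt, sub_self, cos_zero, sin_zero] at h2
  rw [F_polar hK hc θ hr, Hf_sub_ip hK] at h
  linarith

/-- asymptotics of the support function of the large string curves -/
lemma lemE3 {K : Set E2} (hK : Body K) {c : E2} (hc : ∀ θ, 0 < supp K θ - ip c θ) (θ : ℝ) :
    Tendsto (fun l => supp (G K l) θ - l / 2) atTop (𝓝 (-(Hf (supp K) θ) / 2)) := by
  obtain ⟨M, hM0, hM⟩ := kbound hK c
  have hcont := hK.cont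
  have hci := continuous_ip c
  have ck : Continuous (fun θ => supp K θ - ip c θ) := by fun_prop
  have : ∀ l : ℝ, ∃ r : ℝ, per K ≤ l → 0 ≤ r ∧ F K (c + pt r 0 θ) = l := by
    intro l
    by_cases h : per K ≤ l
    · obtain ⟨r, hr⟩ := exists_radius hK hc θ h
      exact ⟨r, fun _ => hr⟩
    · exact ⟨0, fun h' => absurd h' h⟩
  choose r hr using this
  have hev : ∀ᶠ l : ℝ in atTop, per K ≤ l := eventually_ge_atTop _
  have htop : Tendsto r atTop atTop := by
    apply tendsto_atTop_mono' atTop (f₁ := fun l => (l - 2 * M * π) / 2)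
    · filter_upwards [hev] with l hl
      obtain ⟨h0, h1⟩ := hr l hl
      rw [F_polar hK hc θ h0] at h1
      have h2 := abs_le.mp (Hf_bound hM θ)
      have h3 := Rf_le ck hM0 (fun x => (le_abs_self _).trans (hM x)) θ h0
      linarith
    · have : Tendsto (fun l : ℝ => l - 2 * M * π) atTop atTop :=
        tendsto_atTop_add_const_right _ _ tendsto_id
      exact this.atTop_div_const (by norm_num)
  have hR := (Rf_tendsto_zero ck hM0 (fun x => (le_abs_self _).trans (hM x)) hc θ).comp htop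
  have hlow : Tendsto (fun l => -(Hf (supp K) θ) / 2 -
      Rf (fun θ => supp K θ - ip c θ) θ (r l) / 2) atTop (𝓝 (-(Hf (supp K) θ) / 2)) := by
    have := (hR.div_const 2).const_sub (-(Hf (supp K) θ) / 2)
    simpa using this
  apply tendsto_of_tendsto_of_tendsto_of_le_of_le' hlow tendsto_const_nhds
  · filter_upwards [hev] with l hl
    obtain ⟨h0, h1⟩ := hr l hl
    have := lemE2 hK hc θ hl h0 h1
    linarith
  · filter_upwards [hev] with l hl
    have := lemE1 hK θ hl
    linarith

lemma exists_pos_center {K : Set E2} (hK : Body K) : ∃ c : E2, ∀ θ, 0 < supp K θ - ip c θ := by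
  obtain ⟨z, hz⟩ := hK.int
  obtain ⟨r, hr, hball⟩ := Metric.nhds_basis_closedBall.mem_iff.mp (mem_interior_iff_mem_nhds.mp hz)
  refine ⟨z, fun t => ?_⟩
  have hmem : z + pt r 0 t ∈ K := by
    apply hball
    rw [mem_closedBall, dist_self_add_left]
    have : ‖pt r 0 t‖ ^ 2 = r ^ 2 := by
      rw [norm_sq]
      simp only [pt, Matrix.cons_val_zero, Matrix.cons_val_one]
      have := sin_sq_add_cos_sq t
      linear_combination r ^ 2 * this
    exact ((sq_eq_sq₀ (norm_nonneg _) hr.le).mp this).le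
  have h1 := ip_le_supp hK.cpt hmem t
  rw [ip_add, ip_pt, sub_self, cos_zero, sin_zero] at h1
  linarith

/-- the full transitivity hypothesis -/
def Trans (K : Set E2) : Prop := ∀ l : ℝ, per K < l → Tr K (G K l)

/-- the odd part satisfies an integral equation -/
lemma lemO {K : Set E2} (hK : Body K) (hT : Trans K) (θ : ℝ) :
    supp K θ - supp K (θ + π) = (Hf (supp K) (θ + π) - Hf (supp K) θ) / 2 := by
  obtain ⟨c, hc⟩ := exists_pos_center hK
  have h1 := (lemE3 hK hc θ).sub (lemE3 hK hc (θ + π))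
  have h2 : Tendsto (fun l : ℝ => (supp (G K l) θ - l / 2) - (supp (G K l) (θ + π) - l / 2)) atTop
      (𝓝 (supp K θ - supp K (θ + π))) := by
    apply tendsto_const_nhds.congr'
    filter_upwards [eventually_gt_atTop (per K)] with l hl
    have := lemD hK (body_G hK hl.le) (sub_G hK hl.le) (hT l hl) hc θ
    linarith
  have := tendsto_nhds_unique h2 h1
  rw [this]; ring

/-- a transitive body is centrally symmetric -/
lemma exists_center {K : Set E2} (hK : Body K) (hT : Trans K) :
    ∃ c : E2, ∀ θ, supp K (θ + π) - ip c (θ + π) = supp K θ - ip c θ := by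
  set o : ℝ → ℝ := fun θ => supp K θ - supp K (θ + π) with ho
  have hcont := hK.cont
  have hpi : ∀ θ, o (θ + π) = - o θ := by
    intro θ
    simp only [ho]
    rw [show θ + π + π = θ + 2 * π by ring, supp_periodic (K := K) θ]
    ring
  have hder : ∀ θ, HasDerivAt o (o (θ + π / 2)) θ := by
    intro θ
    have e : o = fun θ => (Hf (supp K) (θ + π) - Hf (supp K) θ) / 2 := by
      ext θ; exact lemO hK hT θ
    have h1 := Hf_hasDeriv hcont θ
    have h2 := (Hf_hasDeriv hcont (θ + π)).comp_add_const θ π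
    have h3 : HasDerivAt o ((supp K (θ + π + 3 * π / 2) - supp K (θ + π + π / 2) -
        (supp K (θ + 3 * π / 2) - supp K (θ + π / 2))) / 2) θ := by
      rw [e]
      exact (h2.sub h1).div_const 2
    refine h3.congr_deriv ?_
    show _ = supp K (θ + π / 2) - supp K (θ + π / 2 + π)
    have p1 : supp K (θ + π + 3 * π / 2) = supp K (θ + π / 2) := by
      rw [show θ + π + 3 * π / 2 = θ + π / 2 + 2 * π by ring]
      exact supp_periodic _
    have p2 : θ + π + π / 2 = θ + π / 2 + π := by ring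
    have p3 : θ + 3 * π / 2 = θ + π / 2 + π := by ring
    rw [p1, p2, p3]
    ring
  have hder2 : ∀ θ, HasDerivAt (fun θ => o (θ + π / 2)) (- o θ) θ := by
    intro θ
    have h1 := (hder (θ + π / 2)).comp_add_const θ (π / 2)
    rw [show θ + π / 2 + π / 2 = θ + π by ring, hpi] at h1
    exact h1
  set A : ℝ → ℝ := fun θ => o θ * cos θ - o (θ + π / 2) * sin θ with hA
  set B : ℝ → ℝ := fun θ => o θ * sin θ + o (θ + π / 2) * cos θ with hB
  have dA : ∀ θ, HasDerivAt A 0 θ := by
    intro θ
    exact (((hder θ).mul (hasDerivAt_cos θ)).sub ((hder2 θ).mul (hasDerivAt_sin θ))).congr_deriv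
      (by ring)
  have dB : ∀ θ, HasDerivAt B 0 θ := by
    intro θ
    exact (((hder θ).mul (hasDerivAt_sin θ)).add ((hder2 θ).mul (hasDerivAt_cos θ))).congr_deriv
      (by ring)
  have cA : ∀ θ, A θ = A 0 := fun θ =>
    is_const_of_deriv_eq_zero (fun x => (dA x).differentiableAt) (fun x => (dA x).deriv) θ 0
  have cB : ∀ θ, B θ = B 0 := fun θ =>
    is_const_of_deriv_eq_zero (fun x => (dB x).differentiableAt) (fun x => (dB x).deriv) θ 0
  have hform : ∀ θ, o θ = A 0 * cos θ + B 0 * sin θ := by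
    intro θ
    rw [← cA θ, ← cB θ]
    simp only [hA, hB]
    have := sin_sq_add_cos_sq θ
    linear_combination (- o θ) * this
  refine ⟨!₂[A 0 / 2, B 0 / 2], fun θ => ?_⟩
  have h1 := hform θ
  simp only [ho] at h1
  rw [ip_add_pi]
  have h2 : ip !₂[A 0 / 2, B 0 / 2] θ = (A 0 * cos θ + B 0 * sin θ) / 2 := by
    simp only [ip, Matrix.cons_val_zero, Matrix.cons_val_one]
    ring
  rw [h2]
  linarith

end Pool.Agent.W562.Str
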