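import Pool.Agent.W562.Str.Core2

set_option autoImplicit false

namespace Pool.Agent.W562.Str

open Set MeasureTheory Real Metric Filter Topology
open scoped Pointwise ENNReal

section
variable {K : Set E2} (hK : Body K) (hT : Trans K) {c : E2}
  (hc : ∀ θ, supp K (θ + π) - ip c (θ + π) = supp K θ - ip c θ)

include hK hc in
lemma center_pos (θ : ℝ) : 0 < supp K θ - ip c θ := by
  have h1 := (body_isSF hK).opp θ
  have h2 := hc θ
  rw [ip_add_pi] at h2
  linarith

include hK hT hc in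
/-- confocality: squares of the centred support functions differ by constants -/
lemma lemF {l : ℝ} (hl : per K < l) :
    ∃ C : ℝ, ∀ θ, (supp (G K l) θ - ip c θ) ^ 2 = (supp K θ - ip c θ) ^ 2 + C := by
  have hpos := center_pos hK hc
  have hL := body_G hK hl.le
  have hKL := sub_G hK hl.le
  have hTr := hT l hl
  have hLc : ∀ θ, supp (G K l) (θ + π) - ip c (θ + π) = supp (G K l) θ - ip c θ := by
    intro θ
    have h1 := lemD hK hL hKL hTr hpos θ
    have h2 := hc θ
    linarith
  refine ⟨(supp (G K l) 0 - ip c 0) ^ 2 - (supp K 0 - ip c 0) ^ 2, fun θ => ?_⟩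
  have h1 := (lemB hK hL hKL hTr hpos (θ + π / 2) (0 + π / 2)).2
  have e1 : θ + π / 2 + π / 2 = θ + π := by ring
  have e2 : θ + π / 2 - π / 2 = θ := by ring
  have e3 : 0 + π / 2 + π / 2 = 0 + π := by ring
  have e4 : 0 + π / 2 - π / 2 = 0 := by ring
  rw [e1, e2, e3, e4, hLc, hLc, hc, hc] at h1
  linarith

/-- the coordinates of the intersection of two supporting lines -/
noncomputable def pp (k : ℝ → ℝ) (δ θ : ℝ) : ℝ := (k (θ + δ) + k (θ - δ)) / (2 * cos δ)
noncomputable def qq (k : ℝ → ℝ) (δ θ : ℝ) : ℝ := (k (θ + δ) - k (θ - δ)) / (2 * sin δ)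

include hK in
/-- comparison of `F` at the intersection point of two supporting lines -/
lemma F_sub {x : E2} {θ δ : ℝ} (h0 : 0 < δ) (h1 : δ < π / 2) (ha : ip x (θ - δ) = supp K (θ - δ))
    (hb : ip x (θ + δ) = supp K (θ + δ)) (y : E2) :
    F K x + 2 * sin δ * ip (y - x) θ ≤ F K y := by
  have hs := body_isSF hK
  have hin : ∀ t ∈ Icc (θ - δ) (θ + δ), supp K t ≤ ip x t := by
    intro t ht
    have e1 := hs.sine (θ - δ) t (θ + δ) ht.1 ht.2 (by linarith)
    have e2 := ip_sine x (θ - δ) t (θ + δ)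
    rw [ha, hb] at e2
    have s1 : 0 < sin (θ + δ - (θ - δ)) := sin_pos_of_pos_of_lt_pi (by linarith) (by linarith)
    exact le_of_mul_le_mul_right (by linarith) s1
  have hout : ∀ t ∈ Icc (θ + δ) (θ - δ + 2 * π), ip x t ≤ supp K t := by
    intro t ht
    rcases le_total t (θ - δ + π) with h | h
    · exact right_of hs (by linarith) (by linarith) ha hb.le ht.1 h
    · rcases le_total t (θ + δ + π) with h' | h'
      · have e1 := hin (t - π) ⟨by linarith, by linarith⟩
        have e2 := hs.opp (t - π)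
        have e3 := ip_add_pi x (t - π)
        rw [sub_add_cancel] at e2 e3
        linarith
      · have e1 : ip x (t - 2 * π) ≤ supp K (t - 2 * π) :=
          left_of hs (a := θ + δ) (b := θ - δ) (by linarith) (by linarith) hb ha.le
            (by linarith [ht.2]) (by linarith)
        have e2 := ip_periodic x (t - 2 * π)
        have e3 := supp_periodic (K := K) (t - 2 * π)
        rw [sub_add_cancel] at e2 e3
        linarith
  -- split both integrals
  have hsplit : ∀ z : E2, F K z = (∫ t in (θ - δ)..(θ + δ), max (supp K t) (ip z t)) +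
      ∫ t in (θ + δ)..(θ - δ + 2 * π), max (supp K t) (ip z t) := by
    intro z
    have hp : Function.Periodic (fun θ => max (supp K θ) (ip z θ)) (2 * π) := by
      intro θ
      simp only [supp_periodic (K := K) θ, ip_periodic z θ]
    have e1 := hp.intervalIntegral_add_eq 0 (θ - δ)
    rw [zero_add] at e1
    rw [F, e1, intervalIntegral.integral_add_adjacent_intervals
      ((cmax hK z).intervalIntegrable _ _) ((cmax hK z).intervalIntegrable _ _)]
  rw [hsplit x, hsplit y]
  have e1 : ∫ t in (θ - δ)..(θ + δ), max (supp K t) (ip x t) = ∫ t in (θ - δ)..(θ + δ), ip x t := by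
    apply intervalIntegral.integral_congr
    intro t ht
    rw [uIcc_of_le (by linarith)] at ht
    exact max_eq_right (hin t ht)
  have e2 : ∫ t in (θ + δ)..(θ - δ + 2 * π), max (supp K t) (ip x t) =
      ∫ t in (θ + δ)..(θ - δ + 2 * π), supp K t := by
    apply intervalIntegral.integral_congr
    intro t ht
    rw [uIcc_of_le (by linarith)] at ht
    exact max_eq_left (hout t ht)
  have e3 : ∫ t in (θ - δ)..(θ + δ), ip y t ≤ ∫ t in (θ - δ)..(θ + δ), max (supp K t) (ip y t) := by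
    apply intervalIntegral.integral_mono_on (by linarith)
      ((continuous_ip y).intervalIntegrable _ _) ((cmax hK y).intervalIntegrable _ _)
    intro t _; exact le_max_right _ _
  have e4 : ∫ t in (θ + δ)..(θ - δ + 2 * π), supp K t ≤
      ∫ t in (θ + δ)..(θ - δ + 2 * π), max (supp K t) (ip y t) := by
    apply intervalIntegral.integral_mono_on (by linarith)
      (hK.cont.intervalIntegrable _ _) ((cmax hK y).intervalIntegrable _ _)
    intro t _; exact le_max_left _ _
  have e5 : ∫ t in (θ - δ)..(θ + δ), ip y t = (∫ t in (θ - δ)..(θ + δ), ip x t) +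
      2 * sin δ * ip (y - x) θ := by
    have h3 : ∫ t in (θ - δ)..(θ + δ), ip (y - x) t = 2 * sin δ * ip (y - x) θ := by
      set z := y - x
      simp only [ip]
      have i1 : IntervalIntegrable (fun s => z 0 * cos s) volume (θ - δ) (θ + δ) :=
        (by fun_prop : Continuous fun s => z 0 * cos s).intervalIntegrable _ _
      have i2 : IntervalIntegrable (fun s => z 1 * sin s) volume (θ - δ) (θ + δ) :=
        (by fun_prop : Continuous fun s => z 1 * sin s).intervalIntegrable _ _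
      rw [intervalIntegral.integral_add i1 i2, intervalIntegral.integral_const_mul,
        intervalIntegral.integral_const_mul, integral_cos, integral_sin, sin_add, sin_sub, cos_add,
        cos_sub]
      ring
    have h4 : ∀ t, ip y t = ip x t + ip (y - x) t := by intro t; rw [ip_sub]; ring
    simp_rw [h4]
    rw [intervalIntegral.integral_add ((continuous_ip x).intervalIntegrable _ _)
      ((continuous_ip (y - x)).intervalIntegrable _ _), h3]
  rw [e1, e2]
  linarith

include hK hT hc in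
/-- the local inequality for `g = k ^ 2` -/
lemma lemG {θ δ : ℝ} (h0 : 0 < δ) (h1 : δ < π / 2)
    (hp : supp K θ - ip c θ < pp (fun t => supp K t - ip c t) δ θ) (s : ℝ)
    (hs : 0 ≤ pp (fun t => supp K t - ip c t) δ θ * cos s +
      qq (fun t => supp K t - ip c t) δ θ * sin s) :
    (pp (fun t => supp K t - ip c t) δ θ * cos s + qq (fun t => supp K t - ip c t) δ θ * sin s) ^ 2 -
      pp (fun t => supp K t - ip c t) δ θ ^ 2 ≤
      (supp K (θ + s) - ip c (θ + s)) ^ 2 - (supp K θ - ip c θ) ^ 2 := by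
  set k : ℝ → ℝ := fun t => supp K t - ip c t with hk
  set p := pp k δ θ with hpdef
  set q := qq k δ θ with hqdef
  have hcos : 0 < cos δ := cos_pos_of_mem_Ioo ⟨by linarith, h1⟩
  have hsin : 0 < sin δ := sin_pos_of_pos_of_lt_pi h0 (by linarith [pi_pos])
  have hpd : p * cos δ = (k (θ + δ) + k (θ - δ)) / 2 := by
    rw [hpdef, pp]; field_simp
  have hqd : q * sin δ = (k (θ + δ) - k (θ - δ)) / 2 := by
    rw [hqdef, qq]; field_simp
  set x : E2 := c + pt p q θ with hx
  have hipx : ∀ t, ip x t = ip c t + (p * cos (t - θ) + q * sin (t - θ)) := by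
    intro t; rw [hx, ip_add, ip_pt]
  have ha : ip x (θ - δ) = supp K (θ - δ) := by
    rw [hipx, show θ - δ - θ = -δ by ring, cos_neg, sin_neg]
    have : supp K (θ - δ) = k (θ - δ) + ip c (θ - δ) := by simp only [hk]; ring
    rw [this]; linarith
  have hb : ip x (θ + δ) = supp K (θ + δ) := by
    rw [hipx, show θ + δ - θ = δ by ring]
    have : supp K (θ + δ) = k (θ + δ) + ip c (θ + δ) := by simp only [hk]; ring
    rw [this]; linarith
  have hx0 : ip x θ = ip c θ + p := by rw [hipx]; simp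
  have hxK : x ∉ K := by
    intro hmem
    have := ip_le_supp hK.cpt hmem θ
    rw [hx0] at this
    have h2 : k θ < p := hp
    simp only [hk] at h2
    linarith
  have hl : per K < F K x := per_lt_F hK hxK
  have hG := body_G hK hl.le
  have hxG : x ∈ G K (F K x) := le_refl (F K x)
  have hsupp : supp (G K (F K x)) θ = ip x θ := by
    apply supp_eq hG.cpt hG.ne
    · intro y hy
      have hy' : F K y ≤ F K x := hy
      have h3 := F_sub hK h0 h1 ha hb y
      have h4 : 2 * sin δ * ip (y - x) θ ≤ 0 := by linarith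
      have h5 : ip (y - x) θ ≤ 0 := by
        by_contra hcon
        push Not at hcon
        have : 0 < 2 * sin δ * ip (y - x) θ := by positivity
        linarith
      rw [ip_sub] at h5
      linarith
    · exact ⟨x, hxG, le_rfl⟩
  obtain ⟨C, hC⟩ := lemF hK hT hc hl
  have c1 := hC θ
  have c2 := hC (θ + s)
  rw [hsupp, hx0] at c1
  have h3 : p * cos s + q * sin s ≤ supp (G K (F K x)) (θ + s) - ip c (θ + s) := by
    have := ip_le_supp hG.cpt hxG (θ + s)
    rw [hipx, add_sub_cancel_left] at this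
    linarith
  have h4 : (p * cos s + q * sin s) ^ 2 ≤ (supp (G K (F K x)) (θ + s) - ip c (θ + s)) ^ 2 :=
    pow_le_pow_left₀ hs h3 2
  have h5 : ip c θ + p - ip c θ = p := by ring
  rw [h5] at c1
  linarith

end

lemma sin_div_tendsto : Tendsto (fun s : ℝ => sin s / s) (𝓝[≠] 0) (𝓝 1) := by
  have h1 := (hasDerivAt_sin 0).tendsto_slope
  simp only [cos_zero] at h1
  apply h1.congr
  intro x
  simp [slope_def_field]

/-- abstract differentiability lemma -/
lemma lemH {g p q : ℝ → ℝ} (hp : Continuous p) (hq : Continuous q) {m : ℝ} (hm : 0 < m)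
    (hpm : ∀ θ, m ≤ p θ) {B : ℝ} (hqB : ∀ θ, |q θ| ≤ B)
    (h : ∀ θ s, 0 ≤ p θ * cos s + q θ * sin s →
      (p θ * cos s + q θ * sin s) ^ 2 - p θ ^ 2 ≤ g (θ + s) - g θ) (θ : ℝ) :
    HasDerivAt g (2 * p θ * q θ) θ := by
  have hB0 : 0 ≤ B := (abs_nonneg _).trans (hqB 0)
  -- positivity for small s
  have hsmall : ∀ᶠ s in 𝓝 (0 : ℝ), ∀ t, 0 ≤ p t * cos s + q t * sin s := by
    have h1 : Tendsto (fun s : ℝ => m * cos s - B * |sin s|) (𝓝 0) (𝓝 m) := by
      have : Continuous (fun s : ℝ => m * cos s - B * |sin s|) := by fun_prop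
      have := this.tendsto 0
      simpa using this
    have h2 : ∀ᶠ s in 𝓝 (0 : ℝ), 0 < cos s := by
      have : Tendsto cos (𝓝 0) (𝓝 1) := by
        have := continuous_cos.tendsto 0
        simpa using this
      exact this.eventually (lt_mem_nhds one_pos)
    filter_upwards [h1.eventually (lt_mem_nhds hm), h2] with s hs hcs t
    have a1 := mul_le_mul_of_nonneg_right (hpm t) hcs.le
    have a2 : |q t * sin s| ≤ B * |sin s| := by
      rw [abs_mul]; exact mul_le_mul_of_nonneg_right (hqB t) (abs_nonneg _)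
    have a3 := (abs_le.mp a2).1
    linarith
  rw [hasDerivAt_iff_tendsto_slope_zero]
  set A : ℝ → ℝ := fun s => (sin s / s) * (2 * p θ * q θ * cos s + (q θ ^ 2 - p θ ^ 2) * sin s) with hA
  set D : ℝ → ℝ := fun s => (sin s / s) *
    (2 * p (θ + s) * q (θ + s) * cos s - (q (θ + s) ^ 2 - p (θ + s) ^ 2) * sin s) with hD
  have hAt : Tendsto A (𝓝[≠] 0) (𝓝 (2 * p θ * q θ)) := by
    have h1 : Continuous (fun s : ℝ => 2 * p θ * q θ * cos s + (q θ ^ 2 - p θ ^ 2) * sin s) := by
      fun_prop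
    have h2 := (h1.tendsto 0).mono_left (nhdsWithin_le_nhds (s := {0}ᶜ))
    have h3 := sin_div_tendsto.mul h2
    simpa using h3
  have hDt : Tendsto D (𝓝[≠] 0) (𝓝 (2 * p θ * q θ)) := by
    have h1 : Continuous (fun s : ℝ => 2 * p (θ + s) * q (θ + s) * cos s -
        (q (θ + s) ^ 2 - p (θ + s) ^ 2) * sin s) := by fun_prop
    have h2 := (h1.tendsto 0).mono_left (nhdsWithin_le_nhds (s := {0}ᶜ))
    have h3 := sin_div_tendsto.mul h2
    simpa using h3
  have hmin := hAt.min hDt
  have hmax := hAt.max hDt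
  rw [min_self] at hmin
  rw [max_self] at hmax
  have hsmall' : ∀ᶠ s in 𝓝[≠] (0 : ℝ), ∀ t, 0 ≤ p t * cos s + q t * sin s :=
    hsmall.filter_mono nhdsWithin_le_nhds
  have hsmall'' : ∀ᶠ s in 𝓝[≠] (0 : ℝ), ∀ t, 0 ≤ p t * cos (-s) + q t * sin (-s) := by
    have h1 : Tendsto (fun s : ℝ => -s) (𝓝 0) (𝓝 0) := by
      have := (continuous_neg (G := ℝ)).tendsto 0
      simpa using this
    exact (h1.eventually hsmall).filter_mono nhdsWithin_le_nhds
  have hbounds : ∀ᶠ s in 𝓝[≠] (0 : ℝ), min (A s) (D s) ≤ s⁻¹ • (g (θ + s) - g θ) ∧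
      s⁻¹ • (g (θ + s) - g θ) ≤ max (A s) (D s) := by
    filter_upwards [hsmall', hsmall'', self_mem_nhdsWithin] with s h1 h2 hs0
    have hs0' : s ≠ 0 := hs0
    have l1 := h θ s (h1 θ)
    have l2 := h (θ + s) (-s) (h2 (θ + s))
    rw [add_neg_cancel_right, cos_neg, sin_neg] at l2
    have hsc := sin_sq_add_cos_sq s
    have eA : A s = s⁻¹ * ((p θ * cos s + q θ * sin s) ^ 2 - p θ ^ 2) := by
      simp only [hA]
      rw [div_eq_inv_mul, mul_assoc]
      congr 1
      linear_combination (-(p θ ^ 2)) * hsc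
    have eD : D s = s⁻¹ * (-((p (θ + s) * cos s + q (θ + s) * -sin s) ^ 2 - p (θ + s) ^ 2)) := by
      simp only [hD]
      rw [div_eq_inv_mul, mul_assoc]
      congr 1
      linear_combination (p (θ + s) ^ 2) * hsc
    rw [eA, eD, smul_eq_mul]
    rcases lt_or_gt_of_ne hs0' with hneg | hpos
    · have hi : s⁻¹ < 0 := inv_lt_zero.mpr hneg
      constructor
      · apply min_le_of_right_le
        exact mul_le_mul_of_nonpos_left (by linarith) hi.le
      · apply le_max_of_le_left
        exact mul_le_mul_of_nonpos_left (by linarith) hi.le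
    · have hi : 0 < s⁻¹ := inv_pos.mpr hpos
      constructor
      · apply min_le_of_left_le
        exact mul_le_mul_of_nonneg_left (by linarith) hi.le
      · apply le_max_of_le_right
        exact mul_le_mul_of_nonneg_left (by linarith) hi.le
  exact tendsto_of_tendsto_of_tendsto_of_le_of_le' hmin hmax (hbounds.mono fun _ h => h.1)
    (hbounds.mono fun _ h => h.2)

/-- the functional equation -/
lemma lemI {g : ℝ → ℝ} {δ₀ : ℝ} (hδ0 : 0 ≤ δ₀) (hδ1 : δ₀ < π / 2)
    (h : ∀ δ, δ₀ < δ → δ < π / 2 → ∀ θ, HasDerivAt g ((g (θ + δ) - g (θ - δ)) / sin (2 * δ)) θ) :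
    ∃ A B C : ℝ, ∀ θ, g θ = A + B * cos (2 * θ) + C * sin (2 * θ) := by
  set δ₁ := (δ₀ + π / 2) / 2 with hδ₁
  have hd0 : δ₀ < δ₁ := by rw [hδ₁]; linarith
  have hd1 : δ₁ < π / 2 := by rw [hδ₁]; linarith
  have hsin : ∀ δ, δ₀ < δ → δ < π / 2 → 0 < sin (2 * δ) := fun δ h0 h1 =>
    sin_pos_of_pos_of_lt_pi (by linarith) (by linarith)
  set m : ℝ → ℝ := fun θ => (g (θ + δ₁) - g (θ - δ₁)) / sin (2 * δ₁) with hm
  have hg : ∀ θ, HasDerivAt g (m θ) θ := fun θ => h δ₁ hd0 hd1 θ
  have heq : ∀ δ, δ₀ < δ → δ < π / 2 → ∀ θ, g (θ + δ) - g (θ - δ) = m θ * sin (2 * δ) := by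
    intro δ h0 h1 θ
    have e := (h δ h0 h1 θ).unique (hg θ)
    rw [← e, div_mul_cancel₀ _ (hsin δ h0 h1).ne']
  set m1 : ℝ → ℝ := fun θ => (m (θ + δ₁) - m (θ - δ₁)) / sin (2 * δ₁) with hm1
  have hmd : ∀ θ, HasDerivAt m (m1 θ) θ := by
    intro θ
    have e1 := (hg (θ + δ₁)).comp_add_const θ δ₁
    have e2 := (hg (θ - δ₁)).comp_sub_const θ δ₁
    exact (e1.sub e2).div_const _
  -- differentiate the relation in δ
  have hnear : ∀ δ, δ₀ < δ → δ < π / 2 → ∀ᶠ x in 𝓝 δ, δ₀ < x ∧ x < π / 2 := by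
    intro δ h0 h1
    exact (lt_mem_nhds h0).and (gt_mem_nhds h1)
  have hd : ∀ δ, δ₀ < δ → δ < π / 2 → ∀ θ, m (θ + δ) + m (θ - δ) = 2 * m θ * cos (2 * δ) := by
    intro δ h0 h1 θ
    have e1 : HasDerivAt (fun x => g (θ + x) - g (θ - x)) (m (θ + δ) + m (θ - δ)) δ := by
      have a1 := (hg (θ + δ)).comp_const_add θ δ
      have a2 := (hg (θ - δ)).comp_const_sub θ δ
      exact (a1.sub a2).congr_deriv (by ring)
    have e2 : HasDerivAt (fun x => m θ * sin (2 * x)) (2 * m θ * cos (2 * δ)) δ := by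
      have a1 := (((hasDerivAt_id' δ).const_mul 2).sin).const_mul (m θ)
      exact a1.congr_deriv (by ring)
    have e3 : (fun x => m θ * sin (2 * x)) =ᶠ[𝓝 δ] (fun x => g (θ + x) - g (θ - x)) := by
      filter_upwards [hnear δ h0 h1] with x hx
      exact (heq x hx.1 hx.2 θ).symm
    exact (e1.congr_of_eventuallyEq e3).unique e2
  have hdd : ∀ θ, m1 (θ + δ₁) - m1 (θ - δ₁) = -4 * m θ * sin (2 * δ₁) := by
    intro θ
    have e1 : HasDerivAt (fun x => m (θ + x) + m (θ - x)) (m1 (θ + δ₁) - m1 (θ - δ₁)) δ₁ := by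
      have a1 := (hmd (θ + δ₁)).comp_const_add θ δ₁
      have a2 := (hmd (θ - δ₁)).comp_const_sub θ δ₁
      exact (a1.add a2).congr_deriv (by ring)
    have e2 : HasDerivAt (fun x => 2 * m θ * cos (2 * x)) (-4 * m θ * sin (2 * δ₁)) δ₁ := by
      have a1 := (((hasDerivAt_id' δ₁).const_mul 2).cos).const_mul (2 * m θ)
      exact a1.congr_deriv (by ring)
    have e3 : (fun x => 2 * m θ * cos (2 * x)) =ᶠ[𝓝 δ₁] (fun x => m (θ + x) + m (θ - x)) := by
      filter_upwards [hnear δ₁ hd0 hd1] with x hx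
      exact (hd x hx.1 hx.2 θ).symm
    exact (e1.congr_of_eventuallyEq e3).unique e2
  have hm1d : ∀ θ, HasDerivAt m1 (-4 * m θ) θ := by
    intro θ
    have e1 := (hmd (θ + δ₁)).comp_add_const θ δ₁
    have e2 := (hmd (θ - δ₁)).comp_sub_const θ δ₁
    have e3 := (e1.sub e2).div_const (sin (2 * δ₁))
    rw [hdd, mul_div_cancel_right₀ _ (hsin δ₁ hd0 hd1).ne'] at e3
    exact e3
  have hc2 : ∀ θ : ℝ, HasDerivAt (fun x => cos (2 * x)) (-2 * sin (2 * θ)) θ := fun θ =>
    (((hasDerivAt_id' θ).const_mul 2).cos).congr_deriv (by ring)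
  have hs2 : ∀ θ : ℝ, HasDerivAt (fun x => sin (2 * x)) (2 * cos (2 * θ)) θ := fun θ =>
    (((hasDerivAt_id' θ).const_mul 2).sin).congr_deriv (by ring)
  set P : ℝ → ℝ := fun θ => m θ * cos (2 * θ) - (m1 θ / 2) * sin (2 * θ) with hP
  set Q : ℝ → ℝ := fun θ => m θ * sin (2 * θ) + (m1 θ / 2) * cos (2 * θ) with hQ
  have dP : ∀ θ, HasDerivAt P 0 θ := fun θ =>
    (((hmd θ).mul (hc2 θ)).sub (((hm1d θ).div_const 2).mul (hs2 θ))).congr_deriv (by ring)
  have dQ : ∀ θ, HasDerivAt Q 0 θ := fun θ =>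
    (((hmd θ).mul (hs2 θ)).add (((hm1d θ).div_const 2).mul (hc2 θ))).congr_deriv (by ring)
  have cP : ∀ θ, P θ = P 0 := fun θ =>
    is_const_of_deriv_eq_zero (fun x => (dP x).differentiableAt) (fun x => (dP x).deriv) θ 0
  have cQ : ∀ θ, Q θ = Q 0 := fun θ =>
    is_const_of_deriv_eq_zero (fun x => (dQ x).differentiableAt) (fun x => (dQ x).deriv) θ 0
  have hmform : ∀ θ, m θ = P 0 * cos (2 * θ) + Q 0 * sin (2 * θ) := by
    intro θ
    rw [← cP θ, ← cQ θ]
    simp only [hP, hQ]
    have := sin_sq_add_cos_sq (2 * θ)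
    linear_combination (- m θ) * this
  set R : ℝ → ℝ := fun θ => g θ - (P 0 / 2 * sin (2 * θ) - Q 0 / 2 * cos (2 * θ)) with hR
  have dR : ∀ θ, HasDerivAt R 0 θ := fun θ =>
    ((hg θ).sub (((hs2 θ).const_mul (P 0 / 2)).sub ((hc2 θ).const_mul (Q 0 / 2)))).congr_deriv (by
      rw [hmform]; ring)
  have cR : ∀ θ, R θ = R 0 := fun θ =>
    is_const_of_deriv_eq_zero (fun x => (dR x).differentiableAt) (fun x => (dR x).deriv) θ 0
  refine ⟨R 0, -(Q 0) / 2, P 0 / 2, fun θ => ?_⟩
  rw [← cR θ]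
  simp only [hR]
  ring

end Pool.Agent.W562.Str
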