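import Pool.Agent.W562.Str.Cauchy2
import Pool.Agent.W562.Str.Asym

set_option autoImplicit false

namespace Pool.Agent.W562.Str

open Set MeasureTheory Real Metric Filter Topology
open scoped Pointwise ENNReal

/-- planar convex bodies -/
structure Body (K : Set E2) : Prop where
  cpt : IsCompact K
  cvx : Convex ℝ K
  int : (interior K).Nonempty

lemma Body.ne {K : Set E2} (hK : Body K) : K.Nonempty := hK.int.mono interior_subset

lemma Body.cont {K : Set E2} (hK : Body K) : Continuous (supp K) := continuous_supp hK.cpt hK.ne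

/-- the perimeter of the hull of `K` and `y` -/
noncomputable def F (K : Set E2) (y : E2) : ℝ := ∫ θ in (0 : ℝ)..(2 * π), max (supp K θ) (ip y θ)

/-- the region bounded by the string curve -/
def G (K : Set E2) (l : ℝ) : Set E2 := {x | F K x ≤ l}

/-- the perimeter -/
noncomputable def per (K : Set E2) : ℝ := ∫ θ in (0 : ℝ)..(2 * π), supp K θ

lemma body_hull {K : Set E2} (hK : Body K) (y : E2) : Body (convexHull ℝ (insert y K)) :=
  ⟨hull_insert_compact hK.cpt hK.cvx hK.ne y, convex_convexHull ℝ _,
    hK.int.mono (interior_mono ((subset_insert y K).trans (subset_convexHull ℝ _)))⟩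

lemma len_hull {K : Set E2} (hK : Body K) (y : E2) :
    ((Measure.hausdorffMeasure 1 : Measure E2) (frontier (convexHull ℝ (insert y K)))).toReal =
      F K y := by
  have hb := body_hull hK y
  rw [cauchy_real hb.cpt hb.cvx hb.int, F]
  simp_rw [supp_insert hK.cpt hK.cvx hK.ne y]

lemma len_body {K : Set E2} (hK : Body K) :
    ((Measure.hausdorffMeasure 1 : Measure E2) (frontier K)).toReal = per K :=
  cauchy_real hK.cpt hK.cvx hK.int

section
variable {K : Set E2} (hK : Body K)

include hK in
lemma cmax (y : E2) : Continuous (fun θ => max (supp K θ) (ip y θ)) :=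
  hK.cont.max (continuous_ip y)

include hK in
lemma F_mono_aux {y z : E2} {C : ℝ} (h : ∀ θ, ip y θ ≤ ip z θ + C) (hC : 0 ≤ C) :
    F K y ≤ F K z + 2 * π * C := by
  have h1 : F K z + 2 * π * C = ∫ θ in (0 : ℝ)..(2 * π), (max (supp K θ) (ip z θ) + C) := by
    rw [intervalIntegral.integral_add ((cmax hK z).intervalIntegrable _ _) intervalIntegrable_const,
      intervalIntegral.integral_const, F]
    simp
  rw [h1]
  have hcz := cmax hK z
  have hcz2 : Continuous (fun θ => max (supp K θ) (ip z θ) + C) := by fun_prop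
  apply intervalIntegral.integral_mono_on (by linarith [pi_pos])
    ((cmax hK y).intervalIntegrable _ _) (hcz2.intervalIntegrable _ _)
  intro θ _
  apply max_le
  · linarith [le_max_left (supp K θ) (ip z θ)]
  · linarith [le_max_right (supp K θ) (ip z θ), h θ]

include hK in
lemma F_lip (y z : E2) : |F K y - F K z| ≤ 2 * π * ‖y - z‖ := by
  have h1 : ∀ y z : E2, ∀ θ, ip y θ ≤ ip z θ + ‖y - z‖ := by
    intro y z θ
    have := ip_le_norm (y - z) θ
    rw [ip_sub] at this
    linarith
  rw [abs_le]
  constructor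
  · have := F_mono_aux hK (h1 z y) (norm_nonneg _)
    rw [norm_sub_rev] at this
    linarith
  · have := F_mono_aux hK (h1 y z) (norm_nonneg _)
    linarith

include hK in
lemma F_continuous : Continuous (F K) := by
  have : LipschitzWith (Real.toNNReal (2 * π)) (F K) := by
    apply LipschitzWith.of_dist_le_mul
    intro a b
    rw [Real.dist_eq, dist_eq_norm, Real.coe_toNNReal _ (by positivity)]
    exact F_lip hK a b
  exact this.continuous

include hK in
lemma F_convex {x y : E2} {a b : ℝ} (ha : 0 ≤ a) (hb : 0 ≤ b) (hab : a + b = 1) :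
    F K (a • x + b • y) ≤ a * F K x + b * F K y := by
  have hcx := cmax hK x
  have hcy := cmax hK y
  have c1 : Continuous (fun θ => a * max (supp K θ) (ip x θ)) := by fun_prop
  have c2 : Continuous (fun θ => b * max (supp K θ) (ip y θ)) := by fun_prop
  have c3 : Continuous (fun θ => a * max (supp K θ) (ip x θ) + b * max (supp K θ) (ip y θ)) := by
    fun_prop
  have h1 : a * F K x + b * F K y = ∫ θ in (0 : ℝ)..(2 * π),
      (a * max (supp K θ) (ip x θ) + b * max (supp K θ) (ip y θ)) := by
    rw [intervalIntegral.integral_add (c1.intervalIntegrable _ _) (c2.intervalIntegrable _ _),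
      intervalIntegral.integral_const_mul, intervalIntegral.integral_const_mul]
    rfl
  rw [h1]
  apply intervalIntegral.integral_mono_on (by linarith [pi_pos])
    ((cmax hK _).intervalIntegrable _ _) (c3.intervalIntegrable _ _)
  intro θ _
  have e1 := mul_le_mul_of_nonneg_left (le_max_left (supp K θ) (ip x θ)) ha
  have e2 := mul_le_mul_of_nonneg_left (le_max_right (supp K θ) (ip x θ)) ha
  have e3 := mul_le_mul_of_nonneg_left (le_max_left (supp K θ) (ip y θ)) hb
  have e4 := mul_le_mul_of_nonneg_left (le_max_right (supp K θ) (ip y θ)) hb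
  apply max_le
  · have : supp K θ = a * supp K θ + b * supp K θ := by rw [← add_mul, hab, one_mul]
    linarith
  · rw [ip_add, ip_smul, ip_smul]
    linarith

include hK in
lemma per_le_F (y : E2) : per K ≤ F K y := by
  apply intervalIntegral.integral_mono_on (by linarith [pi_pos])
    (hK.cont.intervalIntegrable _ _) ((cmax hK y).intervalIntegrable _ _)
  intro θ _
  exact le_max_left _ _

include hK in
lemma F_of_mem {y : E2} (hy : y ∈ K) : F K y = per K := by
  apply intervalIntegral.integral_congr
  intro θ _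
  exact max_eq_left (ip_le_supp hK.cpt hy θ)

include hK in
lemma per_lt_F {y : E2} (hy : y ∉ K) : per K < F K y := by
  obtain ⟨θ, hθ⟩ := exists_sep hK.cpt hK.cvx hK.ne hy
  have hc : Continuous (fun θ => max (supp K θ) (ip y θ) - supp K θ) := (cmax hK y).sub hK.cont
  have h1 : 0 < ∫ θ in (0 : ℝ)..(2 * π), (max (supp K θ) (ip y θ) - supp K θ) := by
    apply intervalIntegral.integral_pos (by linarith [pi_pos]) hc.continuousOn
    · intro t _
      linarith [le_max_left (supp K t) (ip y t)]
    · have hp : Function.Periodic (fun θ => max (supp K θ) (ip y θ) - supp K θ) (2 * π) := by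
        intro t
        simp only [supp_periodic (K := K) t, ip_periodic y t]
      obtain ⟨t, ht, he⟩ := hp.exists_mem_Ico₀ (by linarith [pi_pos]) θ
      refine ⟨t, ⟨ht.1, ht.2.le⟩, ?_⟩
      rw [← he, max_eq_right hθ.le]
      linarith
  rw [intervalIntegral.integral_sub ((cmax hK y).intervalIntegrable _ _)
    (hK.cont.intervalIntegrable _ _)] at h1
  unfold F per
  linarith

lemma ip_shift_integral (y : E2) (φ : ℝ) :
    ∫ s in (-(π / 2))..(π / 2), ip y (φ + s) = 2 * ip y φ := by
  obtain ⟨B, hB⟩ : ∃ B, B = ip y (φ + π / 2) := ⟨_, rfl⟩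
  have h1 : ∀ s, ip y (φ + s) = ip y φ * cos s + B * sin s := by
    intro s
    rw [hB]
    simp only [ip, cos_add, sin_add, cos_pi_div_two, sin_pi_div_two]
    ring
  rw [intervalIntegral.integral_congr (g := fun s => ip y φ * cos s + B * sin s)
    (fun s _ => h1 s)]
  have i1 : IntervalIntegrable (fun s => ip y φ * cos s) volume (-(π / 2)) (π / 2) :=
    (by fun_prop : Continuous fun s => ip y φ * cos s).intervalIntegrable _ _
  have i2 : IntervalIntegrable (fun s => B * sin s) volume (-(π / 2)) (π / 2) :=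
    (by fun_prop : Continuous fun s => B * sin s).intervalIntegrable _ _
  rw [intervalIntegral.integral_add i1 i2]
  simp
  ring

lemma Hf_ip (y : E2) (φ : ℝ) : Hf (ip y) φ = -(2 * ip y φ) := by
  have h1 := ip_shift_integral y (φ + π)
  rw [ip_add_pi] at h1
  rw [Hf]
  have h2 := intervalIntegral.integral_comp_add_right (a := -(π / 2)) (b := π / 2)
    (fun s => ip y (φ + s)) π
  have e1 : -(π / 2) + π = π / 2 := by ring
  have e2 : π / 2 + π = 3 * π / 2 := by ring
  rw [e1, e2] at h2
  rw [← h2]
  have h3 : ∀ s, ip y (φ + (s + π)) = ip y (φ + π + s) := by intro s; congr 1; ring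
  simp_rw [h3]
  rw [h1]; ring

include hK in
/-- the basic lower bound -/
lemma F_lower (y : E2) (φ : ℝ) : 2 * ip y φ + Hf (supp K) φ ≤ F K y := by
  have hp : Function.Periodic (fun θ => max (supp K θ) (ip y θ)) (2 * π) := by
    intro θ
    simp only [supp_periodic (K := K) θ, ip_periodic y θ]
  have e1 := hp.intervalIntegral_add_eq 0 (φ - π / 2)
  rw [zero_add] at e1
  rw [F, e1]
  have e2 : ∫ s in (-(π / 2))..(3 * π / 2), max (supp K (φ + s)) (ip y (φ + s)) =
      ∫ θ in (φ - π / 2)..(φ - π / 2 + 2 * π), max (supp K θ) (ip y θ) := by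
    have := intervalIntegral.integral_comp_add_left (a := -(π / 2)) (b := 3 * π / 2)
      (fun θ => max (supp K θ) (ip y θ)) φ
    rw [this]
    congr 1
    ring
  rw [← e2]
  have hc := hK.cont
  have hci := continuous_ip y
  have hc2 : Continuous (fun s => max (supp K (φ + s)) (ip y (φ + s))) := by fun_prop
  rw [← intervalIntegral.integral_add_adjacent_intervals (hc2.intervalIntegrable (-(π / 2)) (π / 2))
    (hc2.intervalIntegrable (π / 2) (3 * π / 2)), ← ip_shift_integral y φ, Hf]
  have hc3 : Continuous (fun s => supp K (φ + s)) := by fun_prop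
  have hc4 : Continuous (fun s => ip y (φ + s)) := by fun_prop
  apply add_le_add
  · apply intervalIntegral.integral_mono_on (by linarith [pi_pos]) (hc4.intervalIntegrable _ _)
      (hc2.intervalIntegrable _ _)
    intro s _; exact le_max_right _ _
  · apply intervalIntegral.integral_mono_on (by linarith [pi_pos]) (hc3.intervalIntegrable _ _)
      (hc2.intervalIntegrable _ _)
    intro s _; exact le_max_left _ _

include hK in
lemma exists_supp_bound : ∃ M, 0 < M ∧ (∀ x ∈ K, ‖x‖ ≤ M) ∧ ∀ θ, |supp K θ| ≤ M := by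
  obtain ⟨M, hM0, hM⟩ := exists_bound hK.cpt
  refine ⟨M, hM0, hM, fun θ => ?_⟩
  obtain ⟨x, hx, h⟩ := exists_supp hK.cpt hK.ne θ
  rw [← h]
  exact (abs_ip_le_norm x θ).trans (hM x hx)

include hK in
lemma body_G {l : ℝ} (hl : per K ≤ l) : Body (G K l) := by
  obtain ⟨M, hM0, -, hM⟩ := exists_supp_bound hK
  have hsub : K ⊆ G K l := fun x hx => by
    show F K x ≤ l
    rw [F_of_mem hK hx]; exact hl
  refine ⟨?_, ?_, hK.int.mono (interior_mono hsub)⟩
  · apply Metric.isCompact_of_isClosed_isBounded
    · exact isClosed_le (F_continuous hK) continuous_const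
    · rw [isBounded_iff_forall_norm_le]
      refine ⟨(l + M * π) / 2, fun x hx => ?_⟩
      have hx' : F K x ≤ l := hx
      obtain ⟨θ, e0, e1⟩ := exists_ip_norm x
      have h1 : ip x θ = ‖x‖ := by rw [ip_of_polar e0 e1, sub_self, cos_zero, mul_one]
      have h2 := F_lower hK x θ
      have h3 := (abs_le.mp (Hf_bound hM θ)).1
      rw [h1] at h2
      linarith
  · intro x hx y hy a b ha hb hab
    have hx' : F K x ≤ l := hx
    have hy' : F K y ≤ l := hy
    show F K (a • x + b • y) ≤ l
    calc F K (a • x + b • y) ≤ a * F K x + b * F K y := F_convex hK ha hb hab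
      _ ≤ a * l + b * l := by gcongr
      _ = l := by rw [← add_mul, hab, one_mul]

include hK in
lemma sub_G {l : ℝ} (hl : per K ≤ l) : K ⊆ G K l := fun x hx => by
  show F K x ≤ l
  rw [F_of_mem hK hx]; exact hl

include hK in
/-- polar form of `F` -/
lemma F_polar {c : E2} (hc : ∀ θ, 0 < supp K θ - ip c θ) (φ : ℝ) {r : ℝ} (hr : 0 ≤ r) :
    F K (c + pt r 0 φ) = 2 * r + Hf (fun θ => supp K θ - ip c θ) φ +
      Rf (fun θ => supp K θ - ip c θ) φ r := by
  have hcont := hK.cont
  have hci := continuous_ip c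
  rw [← psi_eq (k := fun θ => supp K θ - ip c θ) (by fun_prop) (by
    intro θ
    simp only [supp_periodic (K := K) θ, ip_periodic c θ]) hc φ hr]
  have h1 : ∀ θ, max (supp K θ) (ip (c + pt r 0 φ) θ) =
      max (supp K θ - ip c θ) (r * cos (θ - φ)) + ip c θ := by
    intro θ
    rw [ip_add, ip_pt, zero_mul, add_zero, ← max_add_add_right]
    congr 1 <;> ring
  rw [F]
  simp_rw [h1]
  have hc5 : Continuous (fun θ => max (supp K θ - ip c θ) (r * cos (θ - φ))) := by fun_prop
  rw [intervalIntegral.integral_add (hc5.intervalIntegrable _ _) (hci.intervalIntegrable _ _),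
    integral_ip, add_zero]

lemma Hf_sub_ip (hK : Body K) (c : E2) (φ : ℝ) :
    Hf (fun θ => supp K θ - ip c θ) φ = Hf (supp K) φ + 2 * ip c φ := by
  have hcont := hK.cont
  have hci := continuous_ip c
  have h1 := Hf_ip c φ
  unfold Hf at h1 ⊢
  have c1 : Continuous (fun s => supp K (φ + s)) := by fun_prop
  have c2 : Continuous (fun s => ip c (φ + s)) := by fun_prop
  rw [intervalIntegral.integral_sub (c1.intervalIntegrable _ _) (c2.intervalIntegrable _ _), h1]
  ring

/-- existence of the boundary point in a given direction -/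
lemma exists_radius (hK : Body K) {c : E2} (hc : ∀ θ, 0 < supp K θ - ip c θ) (φ : ℝ) {l : ℝ}
    (hl : per K ≤ l) : ∃ r : ℝ, 0 ≤ r ∧ F K (c + pt r 0 φ) = l := by
  have hcK : c ∈ K := (mem_iff hK.cpt hK.cvx hK.ne).mpr fun θ => by linarith [hc θ]
  have hcont : Continuous (fun r : ℝ => F K (c + pt r 0 φ)) := by
    have h1 : Continuous (fun r : ℝ => c + pt r 0 φ) := by
      have : (fun r : ℝ => c + pt r 0 φ) = fun r : ℝ => c + r • pt 1 0 φ := by
        ext r i
        fin_cases i <;> simp [pt]
      rw [this]; fun_prop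
    exact (F_continuous hK).comp h1
  have h0 : F K (c + pt 0 0 φ) = per K := by
    have : pt 0 0 φ = 0 := by
      ext i; fin_cases i <;> simp [pt]
    rw [this, add_zero, F_of_mem hK hcK]
  obtain ⟨M, hM0, -, hM⟩ := exists_supp_bound hK
  set R : ℝ := max 0 ((l + (M + ‖c‖) * π) / 2) with hR
  have hR0 : 0 ≤ R := le_max_left _ _
  have h1 : l ≤ F K (c + pt R 0 φ) := by
    rw [F_polar hK hc φ hR0]
    have h2 : |Hf (fun θ => supp K θ - ip c θ) φ| ≤ (M + ‖c‖) * π := by
      apply Hf_bound
      intro θ
      calc |supp K θ - ip c θ| ≤ |supp K θ| + |ip c θ| := abs_sub _ _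
        _ ≤ M + ‖c‖ := add_le_add (hM θ) (abs_ip_le_norm c θ)
    have h3 := (abs_le.mp h2).1
    have h4 := Rf_nonneg (fun θ => supp K θ - ip c θ) φ R
    have h5 : (l + (M + ‖c‖) * π) / 2 ≤ R := le_max_right _ _
    linarith
  have h2 := intermediate_value_Icc hR0 hcont.continuousOn
  obtain ⟨r, hr, he⟩ := h2 ⟨by rw [h0]; exact hl, h1⟩
  exact ⟨r, hr.1, he⟩

end

end Pool.Agent.W562.Str
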