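import Pool.Agent.W562.Str.Perim

set_option autoImplicit false

namespace Pool.Agent.W562.Str

open Set MeasureTheory Real Metric
open scoped Pointwise ENNReal

/-- what we need of a support function -/
structure IsSF (s : ℝ → ℝ) : Prop where
  per : Function.Periodic s (2 * π)
  sine : ∀ a t b, a ≤ t → t ≤ b → b - a ≤ π →
    s t * sin (b - a) ≤ s a * sin (b - t) + s b * sin (t - a)
  opp : ∀ a, 0 < s a + s (a + π)

lemma right_of {s : ℝ → ℝ} (hs : IsSF s) {x : E2} {a b t : ℝ} (hab : a < b) (hb : b < a + π)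
    (h1 : ip x a = s a) (h2 : ip x b ≤ s b) (hbt : b ≤ t) (ht : t ≤ a + π) : ip x t ≤ s t := by
  have h3 := hs.sine a b t hab.le hbt (by linarith)
  have h4 := ip_sine x a b t
  have s1 : 0 < sin (b - a) := sin_pos_of_pos_of_lt_pi (by linarith) (by linarith)
  have s2 : 0 ≤ sin (t - a) := sin_nonneg_of_nonneg_of_le_pi (by linarith) (by linarith)
  have h5 := mul_le_mul_of_nonneg_right h2 s2
  rw [h1] at h4
  have h6 : ip x t * sin (b - a) ≤ s t * sin (b - a) := by linarith
  exact le_of_mul_le_mul_right h6 s1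

lemma left_of {s : ℝ → ℝ} (hs : IsSF s) {x : E2} {a b t : ℝ} (hab : b < a) (hb : a - π < b)
    (h1 : ip x a = s a) (h2 : ip x b ≤ s b) (hbt : t ≤ b) (ht : a - π ≤ t) : ip x t ≤ s t := by
  have h3 := hs.sine t b a hbt hab.le (by linarith)
  have h4 := ip_sine x t b a
  have s1 : 0 < sin (a - b) := sin_pos_of_pos_of_lt_pi (by linarith) (by linarith)
  have s2 : 0 ≤ sin (a - t) := sin_nonneg_of_nonneg_of_le_pi (by linarith) (by linarith)
  have h5 := mul_le_mul_of_nonneg_right h2 s2
  rw [h1] at h4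
  have h6 : ip x t * sin (a - b) ≤ s t * sin (a - b) := by linarith
  exact le_of_mul_le_mul_right h6 s1

/-- circumscribed polygon -/
def poly (s : ℝ → ℝ) (ε : ℝ) : Set E2 := {x | ∀ i : ℤ, ip x (i * ε) ≤ s (i * ε)}

/-- its edges -/
def edge (s : ℝ → ℝ) (ε : ℝ) (i : ℤ) : Set E2 :=
  {x | ip x (i * ε) = s (i * ε) ∧ ip x ((i - 1) * ε) ≤ s ((i - 1) * ε) ∧
    ip x ((i + 1) * ε) ≤ s ((i + 1) * ε)}

section
variable {s : ℝ → ℝ} (hs : IsSF s) {n : ℕ} (hn : 3 ≤ n) {ε : ℝ} (hε : ε = 2 * π / n)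

include hn hε in
lemma eps_pos : 0 < ε := by
  rw [hε]
  have : (0 : ℝ) < n := by exact_mod_cast (by omega : 0 < n)
  positivity

include hn hε in
lemma eps_lt : ε < π := by
  rw [hε]
  have h3 : (3 : ℝ) ≤ n := by exact_mod_cast hn
  rw [div_lt_iff₀ (by linarith)]
  nlinarith [pi_pos]

include hn hε in
lemma n_eps : (n : ℝ) * ε = 2 * π := by
  rw [hε]
  have : (n : ℝ) ≠ 0 := by
    have : 0 < n := by omega
    exact_mod_cast this.ne'
  field_simp

include hs hn hε in
lemma edge_subset (i : ℤ) : edge s ε i ⊆ poly s ε := by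
  rintro x ⟨h0, h1, h2⟩ j
  have he := eps_pos hn hε
  have hl := eps_lt hn hε
  have hne := n_eps hn hε
  -- shift j into the right window
  set k : ℤ := round (((i : ℝ) - j) / n) with hk
  have hn0 : (0 : ℝ) < n := by exact_mod_cast (by omega : 0 < n)
  have hr := abs_sub_round (((i : ℝ) - j) / n)
  set j' : ℤ := j + k * n with hj'
  have e1 : (j' : ℝ) * ε = j * ε + k * (2 * π) := by
    rw [hj', ← hne]; push_cast; ring
  have e2 : ip x (j * ε) = ip x (j' * ε) := by
    rw [e1]; exact ((ip_periodic x).int_mul k _).symm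
  have e3 : s (j * ε) = s (j' * ε) := by
    rw [e1]; exact (hs.per.int_mul k _).symm
  rw [e2, e3]
  have hclose : |(i : ℝ) - j'| * ε ≤ π := by
    have h4 : (i : ℝ) - j' = (((i : ℝ) - j) / n - k) * n := by
      rw [hj']; push_cast; field_simp; ring
    rw [h4, abs_mul, abs_of_pos hn0, mul_assoc, hne]
    nlinarith [pi_pos]
  rcases lt_trichotomy j' i with hlt | heq | hgt
  · have h5 : (j' : ℝ) ≤ i - 1 := by
      have : j' ≤ i - 1 := by omega
      exact_mod_cast this
    have h6 : (0 : ℝ) ≤ i - j' := by linarith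
    rw [abs_of_nonneg h6] at hclose
    apply left_of hs (a := i * ε) (b := (i - 1) * ε) (by nlinarith) (by nlinarith) h0 h1
    · nlinarith
    · nlinarith
  · rw [heq, h0]
  · have h5 : (i : ℝ) + 1 ≤ j' := by
      have : i + 1 ≤ j' := by omega
      exact_mod_cast this
    have h6 : (i : ℝ) - j' ≤ 0 := by linarith
    rw [abs_of_nonpos h6] at hclose
    apply right_of hs (a := i * ε) (b := (i + 1) * ε) (by nlinarith) (by nlinarith) h0 h2
    · nlinarith
    · nlinarith

/-- point with given coordinates in a rotated frame -/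
noncomputable def pt (a b θ : ℝ) : E2 := !₂[a * cos θ - b * sin θ, a * sin θ + b * cos θ]

lemma ip_pt (a b θ t : ℝ) : ip (pt a b θ) t = a * cos (t - θ) + b * sin (t - θ) := by
  simp only [ip, pt, cos_sub, sin_sub, PiLp.toLp_apply, Matrix.cons_val_zero, Matrix.cons_val_one]
  ring

lemma eq_pt (x : E2) (θ : ℝ) : x = pt (ip x θ) (ip x (θ + π / 2)) θ := by
  have h := sin_sq_add_cos_sq θ
  ext i
  fin_cases i
  · simp only [ip, pt, cos_add_pi_div_two, sin_add_pi_div_two, PiLp.toLp_apply, Fin.zero_eta,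
      Matrix.cons_val_zero]
    linear_combination (-x 0) * h
  · simp only [ip, pt, cos_add_pi_div_two, sin_add_pi_div_two, Fin.mk_one,
      Matrix.cons_val_one, Matrix.cons_val_fin_one]
    linear_combination (-x 1) * h

lemma pt_isometry (a θ : ℝ) : Isometry (fun b : ℝ => pt a b θ) := by
  apply Isometry.of_dist_eq
  intro b b'
  rw [dist_eq_norm, Real.dist_eq]
  have h1 : ‖pt a b θ - pt a b' θ‖ ^ 2 = |b - b'| ^ 2 := by
    rw [norm_sq, sq_abs]
    simp only [pt, PiLp.sub_apply, Matrix.cons_val_zero, Matrix.cons_val_one]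
    have := sin_sq_add_cos_sq θ
    linear_combination (b - b') ^ 2 * this
  exact (sq_eq_sq₀ (norm_nonneg _) (abs_nonneg _)).mp h1

lemma edge_eq (hε0 : 0 < ε) (hε1 : ε < π) (i : ℤ) :
    edge s ε i = (fun b : ℝ => pt (s (i * ε)) b (i * ε)) ''
      Icc (-(s ((i - 1) * ε) - s (i * ε) * cos ε) / sin ε)
        ((s ((i + 1) * ε) - s (i * ε) * cos ε) / sin ε) := by
  have hsin : 0 < sin ε := sin_pos_of_pos_of_lt_pi hε0 hε1
  ext x
  constructor
  · rintro ⟨h0, h1, h2⟩
    refine ⟨ip x (i * ε + π / 2), ?_, ?_⟩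
    · have hx := eq_pt x (i * ε)
      rw [h0] at hx
      set b := ip x (i * ε + π / 2)
      rw [hx, ip_pt] at h1 h2
      have e1 : (i - 1) * ε - i * ε = -ε := by ring
      have e2 : (i + 1) * ε - i * ε = ε := by ring
      rw [e1, cos_neg, sin_neg] at h1
      rw [e2] at h2
      constructor
      · rw [div_le_iff₀ hsin]; linarith
      · rw [le_div_iff₀ hsin]; linarith
    · have hx := eq_pt x (i * ε)
      rw [h0] at hx
      exact hx.symm
  · rintro ⟨b, ⟨hb1, hb2⟩, rfl⟩
    rw [div_le_iff₀ hsin] at hb1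
    rw [le_div_iff₀ hsin] at hb2
    have e0 : (i : ℝ) * ε - i * ε = 0 := by ring
    have e1 : (i - 1) * ε - i * ε = -ε := by ring
    have e2 : (i + 1) * ε - i * ε = ε := by ring
    refine ⟨?_, ?_, ?_⟩
    · simp only [ip_pt, e0, cos_zero, sin_zero]; ring
    · simp only [ip_pt, e1, cos_neg, sin_neg]; linarith
    · simp only [ip_pt, e2]; linarith

lemma edge_measure (hε0 : 0 < ε) (hε1 : ε < π) (i : ℤ) :
    (Measure.hausdorffMeasure 1 : Measure E2) (edge s ε i) =
      ENNReal.ofReal ((s ((i + 1) * ε) + s ((i - 1) * ε) - 2 * s (i * ε) * cos ε) / sin ε) := by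
  rw [edge_eq hε0 hε1, (pt_isometry _ _).hausdorffMeasure_image (Or.inl zero_le_one),
    hausdorffMeasure_real, Real.volume_Icc]
  congr 1
  ring

lemma edge_closed (i : ℤ) : IsClosed (edge s ε i) := by
  have c1 := continuous_ip_left (i * ε)
  have c2 := continuous_ip_left ((i - 1) * ε)
  have c3 := continuous_ip_left ((i + 1) * ε)
  exact (isClosed_eq c1 continuous_const).inter
    ((isClosed_le c2 continuous_const).inter (isClosed_le c3 continuous_const))

lemma poly_closed : IsClosed (poly s ε) := by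
  have : poly s ε = ⋂ i : ℤ, {x : E2 | ip x (i * ε) ≤ s (i * ε)} := by
    ext x; simp [poly]
  rw [this]
  exact isClosed_iInter fun i => isClosed_le (continuous_ip_left _) continuous_const

lemma poly_convex : Convex ℝ (poly s ε) := by
  intro x hx y hy a b ha hb hab i
  rw [ip_add, ip_smul, ip_smul]
  calc a * ip x (i * ε) + b * ip y (i * ε) ≤ a * s (i * ε) + b * s (i * ε) := by
        have h1 := hx i
        have h2 := hy i
        gcongr
    _ = s (i * ε) := by rw [← add_mul, hab, one_mul]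

include hs hn hε in
/-- every constraint is equivalent to one with index below `n` -/
lemma reduce_index (i : ℤ) : ∃ j : ℕ, j < n ∧ s (i * ε) = s (j * ε) ∧ ∀ x : E2, ip x (i * ε) = ip x (j * ε) := by
  have hn0 : (n : ℤ) ≠ 0 := by omega
  refine ⟨(i % n).toNat, ?_, ?_⟩
  · have := Int.emod_lt_of_pos i (show (0 : ℤ) < n by omega)
    have := Int.emod_nonneg i hn0
    omega
  · have h1 : (i : ℝ) * ε = ((i % n).toNat : ℝ) * ε + (i / n : ℤ) * (2 * π) := by
      rw [← n_eps hn hε]
      have h2 : ((i % n).toNat : ℤ) = i % n := Int.toNat_of_nonneg (Int.emod_nonneg i hn0)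
      have h3 : (((i % n).toNat : ℤ) : ℝ) = ((i % n : ℤ) : ℝ) := by rw [h2]
      have h4 : (((i % n).toNat : ℕ) : ℝ) = ((i % n : ℤ) : ℝ) := by
        rw [← h3]; push_cast; rfl
      rw [h4]
      have h5 : (i : ℝ) = ((i % n : ℤ) : ℝ) + (n : ℝ) * ((i / n : ℤ) : ℝ) := by
        have := Int.emod_add_mul_ediv i n
        exact_mod_cast this.symm
      rw [h5]
      ring_nf
    constructor
    · rw [h1]; exact hs.per.int_mul _ _
    · intro x; rw [h1]; exact (ip_periodic x).int_mul _ _

end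

end Pool.Agent.W562.Str
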